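import Mathlib
import Pool.Agent.Helper625.Planch
set_option autoImplicit false

/-! One-dimensional estimates for the extension operator of the parabola. -/

namespace Pool.Agent.H147R3.PE

open MeasureTheory Set Complex
open scoped ENNReal FourierTransform ComplexConjugate Convolution

/-- Fourier transform with the normalisation of the problem. -/
noncomputable def FT (f : ℝ → ℂ) (ξ : ℝ) : ℂ :=
  ∫ s : ℝ, cexp (((-(s * ξ) : ℝ) : ℂ) * I) * f s

lemma FT_eq (f : ℝ → ℂ) (ξ : ℝ) : FT f ξ = 𝓕 f (ξ / (2 * Real.pi)) := by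
  rw [Real.fourier_real_eq_integral_exp_smul]
  unfold FT
  apply integral_congr_ae
  refine ae_of_all _ fun s => ?_
  simp only [smul_eq_mul]
  congr 3
  have : Real.pi ≠ 0 := Real.pi_ne_zero
  push_cast
  field_simp

lemma planch (f : ℝ → ℂ) (h1 : Integrable f) (h2 : MemLp f 2) :
    ∫⁻ ξ : ℝ, ‖FT f ξ‖ₑ ^ 2 = ENNReal.ofReal (2 * Real.pi) * ∫⁻ s, ‖f s‖ₑ ^ 2 := by
  obtain ⟨hm, he⟩ := Pool.Agent.Helper625.Planch.plancherel f h1 h2
  have ha : (2 * Real.pi) ≠ 0 := by positivity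
  have hint : Integrable (fun x => ‖𝓕 f x‖ ^ 2) :=
    (memLp_two_iff_integrable_sq_norm hm.aestronglyMeasurable).1 hm
  have hint' : Integrable (fun ξ : ℝ => ‖𝓕 f (ξ / (2 * Real.pi))‖ ^ 2) := hint.comp_div ha
  have hintf : Integrable (fun x => ‖f x‖ ^ 2) :=
    (memLp_two_iff_integrable_sq_norm h2.aestronglyMeasurable).1 h2
  have e1 : ∀ z : ℂ, ‖z‖ₑ ^ 2 = ENNReal.ofReal (‖z‖ ^ 2) := by
    intro z
    rw [← ofReal_norm, ENNReal.ofReal_pow (norm_nonneg _)]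
  simp only [FT_eq, e1]
  rw [← ofReal_integral_eq_lintegral_ofReal hint' (ae_of_all _ fun _ => by positivity),
    ← ofReal_integral_eq_lintegral_ofReal hintf (ae_of_all _ fun _ => by positivity),
    Measure.integral_comp_div (fun x => ‖𝓕 f x‖ ^ 2) (2 * Real.pi), he, smul_eq_mul,
    ENNReal.ofReal_mul (abs_nonneg _), abs_of_nonneg (by positivity)]

/-- bounded measurable functions supported in `[-1,1]` -/
structure BS (M : ℝ) (g : ℝ → ℂ) : Prop where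
  meas : Measurable g
  bd : ∀ z, ‖g z‖ ≤ M
  supp : ∀ z, 1 < |z| → g z = 0

lemma BS.memLp {M : ℝ} {g : ℝ → ℂ} (hg : BS M g) (p : ℝ≥0∞) : MemLp g p volume := by
  have h1 : g = (Icc (-1 : ℝ) 1).indicator g := by
    ext z
    by_cases hz : z ∈ Icc (-1 : ℝ) 1
    · rw [indicator_of_mem hz]
    · rw [indicator_of_notMem hz]
      apply hg.supp
      rw [← not_le, abs_le]
      exact hz
  rw [h1, memLp_indicator_iff_restrict measurableSet_Icc]
  have : IsFiniteMeasure (volume.restrict (Icc (-1 : ℝ) 1)) :=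
    ⟨by rw [Measure.restrict_apply_univ]; exact measure_Icc_lt_top⟩
  exact MemLp.of_bound hg.meas.aestronglyMeasurable M (ae_of_all _ hg.bd)

lemma BS.int {M : ℝ} {g : ℝ → ℂ} (hg : BS M g) : Integrable g := memLp_one_iff_integrable.1 (hg.memLp 1)

lemma BS.M0 {M : ℝ} {g : ℝ → ℂ} (hg : BS M g) : 0 ≤ M := (norm_nonneg _).trans (hg.bd 0)

/-- bound of the Fourier transform -/
lemma BS.FT_bd {M : ℝ} {g : ℝ → ℂ} (hg : BS M g) (ξ : ℝ) : ‖FT g ξ‖ ≤ 2 * M := by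
  unfold FT
  have h1 : (∫ s : ℝ, cexp (((-(s * ξ) : ℝ) : ℂ) * I) * g s) =
      ∫ s in Icc (-1 : ℝ) 1, cexp (((-(s * ξ) : ℝ) : ℂ) * I) * g s := by
    rw [← integral_indicator measurableSet_Icc]
    congr 1
    ext z
    by_cases hz : z ∈ Icc (-1 : ℝ) 1
    · rw [indicator_of_mem hz]
    · rw [indicator_of_notMem hz, hg.supp, mul_zero]
      rw [← not_le, abs_le]
      exact hz
  rw [h1]
  refine (norm_setIntegral_le_of_norm_le_const (C := M) measure_Icc_lt_top (fun s _ => ?_)).trans ?_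
  · rw [norm_mul, Complex.norm_exp_ofReal_mul_I, one_mul]
    exact hg.bd s
  · rw [Real.volume_real_Icc_of_le (by norm_num)]
    apply le_of_eq
    ring

/-- the chirp -/
noncomputable def ch (s : ℝ) (g : ℝ → ℂ) (z : ℝ) : ℂ := cexp (((-(s * z ^ 2) : ℝ) : ℂ) * I) * g z

lemma ch_norm (s : ℝ) (g : ℝ → ℂ) (z : ℝ) : ‖ch s g z‖ = ‖g z‖ := by
  unfold ch
  rw [norm_mul, Complex.norm_exp_ofReal_mul_I, one_mul]

lemma ch_enorm (s : ℝ) (g : ℝ → ℂ) (z : ℝ) : ‖ch s g z‖ₑ = ‖g z‖ₑ := by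
  rw [← ofReal_norm, ← ofReal_norm, ch_norm]

lemma BS.ch {M : ℝ} {g : ℝ → ℂ} (hg : BS M g) (s : ℝ) : BS M (ch s g) := by
  refine ⟨?_, fun z => ?_, fun z hz => ?_⟩
  · unfold PE.ch
    exact (by fun_prop : Measurable fun z : ℝ => cexp (((-(s * z ^ 2) : ℝ) : ℂ) * I)).mul hg.meas
  · rw [ch_norm]
    exact hg.bd z
  · unfold PE.ch
    rw [hg.supp z hz, mul_zero]

/-- products `g (z + h) * conj (g z)` -/
noncomputable def kk (g : ℝ → ℂ) (h z : ℝ) : ℂ := g (z + h) * conj (g z)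

lemma BS.kk {M : ℝ} {g : ℝ → ℂ} (hg : BS M g) (h : ℝ) : BS (M ^ 2) (kk g h) := by
  refine ⟨?_, fun z => ?_, fun z hz => ?_⟩
  · unfold PE.kk
    exact (hg.meas.comp (by fun_prop)).mul (continuous_conj.measurable.comp hg.meas)
  · unfold PE.kk
    rw [norm_mul, RCLike.norm_conj, sq]
    exact mul_le_mul (hg.bd _) (hg.bd _) (norm_nonneg _) hg.M0
  · unfold PE.kk
    rw [hg.supp z hz]
    simp

lemma kk_zero {M : ℝ} {g : ℝ → ℂ} (hg : BS M g) (h : ℝ) (hh : 2 < |h|) (z : ℝ) : kk g h z = 0 := by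
  unfold kk
  by_cases hz : 1 < |z|
  · rw [hg.supp z hz]
    simp
  · rw [hg.supp (z + h), zero_mul]
    push Not at hz
    have : |h| ≤ |z + h| + |z| := by
      have := abs_sub (z + h) z
      simpa using this
    linarith

/-- autocorrelation -/
noncomputable def BB (g : ℝ → ℂ) (h : ℝ) : ℂ := ∫ z, kk g h z

lemma conj_fourier (g : ℝ → ℂ) (ξ : ℝ) :
    𝓕 (fun t => conj (g (-t))) ξ = conj (𝓕 g ξ) := by
  rw [Real.fourier_real_eq_integral_exp_smul, Real.fourier_real_eq_integral_exp_smul]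
  rw [← integral_conj, ← integral_neg_eq_self]
  apply integral_congr_ae
  refine ae_of_all _ fun s => ?_
  simp only [smul_eq_mul, map_mul, neg_neg]
  congr 1
  rw [← Complex.exp_conj]
  congr 1
  simp only [map_mul, Complex.conj_ofReal, Complex.conj_I]
  push_cast
  ring

lemma BB_conv (g : ℝ → ℂ) :
    ((fun t => conj (g (-t))) ⋆[ContinuousLinearMap.mul ℂ ℂ] g) = BB g := by
  ext h
  unfold BB convolution kk
  rw [← integral_neg_eq_self]
  apply integral_congr_ae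
  refine ae_of_all _ fun s => ?_
  simp only [neg_neg, ContinuousLinearMap.mul_apply', sub_neg_eq_add]
  rw [add_comm h s, mul_comm]

lemma BS.neg {M : ℝ} {g : ℝ → ℂ} (hg : BS M g) : BS M (fun t => conj (g (-t))) := by
  refine ⟨?_, fun z => ?_, fun z hz => ?_⟩
  · exact continuous_conj.measurable.comp (hg.meas.comp measurable_neg)
  · rw [RCLike.norm_conj]
    exact hg.bd _
  · rw [hg.supp (-z) (by rwa [abs_neg])]
    simp

lemma FT_BB {M : ℝ} {g : ℝ → ℂ} (hg : BS M g) (ξ : ℝ) :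
    FT (BB g) ξ = conj (FT g ξ) * FT g ξ := by
  rw [← BB_conv, FT_eq, FT_eq, Real.fourier_mul_convolution_eq hg.neg.int hg.int, conj_fourier]

lemma BB_int {M : ℝ} {g : ℝ → ℂ} (hg : BS M g) : Integrable (BB g) := by
  rw [← BB_conv]
  exact hg.neg.int.integrable_convolution (ContinuousLinearMap.mul ℂ ℂ) hg.int

lemma BB_bd {M : ℝ} {g : ℝ → ℂ} (hg : BS M g) (h : ℝ) : ‖BB g h‖ ≤ 2 * M ^ 2 := by
  have := (hg.kk h).FT_bd 0
  unfold FT at this
  simpa [BB] using this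

lemma BB_memLp {M : ℝ} {g : ℝ → ℂ} (hg : BS M g) : MemLp (BB g) 2 := by
  have h1 := BB_int hg
  rw [memLp_two_iff_integrable_sq_norm h1.aestronglyMeasurable]
  refine (h1.norm.const_mul (2 * M ^ 2)).mono (h1.aestronglyMeasurable.norm.pow 2)
    (ae_of_all _ fun h => ?_)
  rw [Real.norm_of_nonneg (by positivity), norm_mul, norm_norm, sq,
    Real.norm_of_nonneg (by have := hg.M0; positivity)]
  exact mul_le_mul_of_nonneg_right (BB_bd hg h) (norm_nonneg _)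

lemma four {M : ℝ} {g : ℝ → ℂ} (hg : BS M g) :
    ∫⁻ ξ : ℝ, ‖FT g ξ‖ₑ ^ 4 = ENNReal.ofReal (2 * Real.pi) * ∫⁻ h, ‖BB g h‖ₑ ^ 2 := by
  rw [← planch _ (BB_int hg) (BB_memLp hg)]
  congr 1
  ext ξ
  rw [FT_BB hg, enorm_mul]
  have : ‖conj (FT g ξ)‖ₑ = ‖FT g ξ‖ₑ := by
    rw [← ofReal_norm, ← ofReal_norm, RCLike.norm_conj]
  rw [this]
  ring

lemma BB_ch (s : ℝ) (g : ℝ → ℂ) (h : ℝ) : ‖BB (ch s g) h‖ₑ = ‖FT (kk g h) (2 * s * h)‖ₑ := by
  have h1 : BB (ch s g) h = cexp (((-(s * h ^ 2) : ℝ) : ℂ) * I) * FT (kk g h) (2 * s * h) := by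
    unfold BB FT
    rw [← integral_const_mul]
    apply integral_congr_ae
    refine ae_of_all _ fun z => ?_
    simp only [kk, ch, map_mul]
    rw [← Complex.exp_conj]
    have e1 : cexp (((-(s * (z + h) ^ 2) : ℝ) : ℂ) * I) *
        cexp (conj ((((-(s * z ^ 2) : ℝ) : ℂ) * I))) =
        cexp (((-(s * h ^ 2) : ℝ) : ℂ) * I) * cexp (((-(z * (2 * s * h)) : ℝ) : ℂ) * I) := by
      rw [← Complex.exp_add, ← Complex.exp_add]
      congr 1
      simp
      ring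
    linear_combination (g (z + h) * conj (g z)) * e1
  rw [h1, enorm_mul]
  have : ‖cexp (((-(s * h ^ 2) : ℝ) : ℂ) * I)‖ₑ = 1 := by
    rw [← ofReal_norm, Complex.norm_exp_ofReal_mul_I, ENNReal.ofReal_one]
  rw [this, one_mul]

lemma four_ch {M : ℝ} {g : ℝ → ℂ} (hg : BS M g) (s : ℝ) :
    ∫⁻ ξ : ℝ, ‖FT (ch s g) ξ‖ₑ ^ 4 =
      ENNReal.ofReal (2 * Real.pi) * ∫⁻ h, ‖FT (kk g h) (2 * s * h)‖ₑ ^ 2 := by
  rw [four (hg.ch s)]
  simp only [BB_ch]

lemma two_ch {M : ℝ} {g : ℝ → ℂ} (hg : BS M g) (s : ℝ) :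
    ∫⁻ ξ : ℝ, ‖FT (ch s g) ξ‖ₑ ^ 2 = ENNReal.ofReal (2 * Real.pi) * ∫⁻ z, ‖g z‖ₑ ^ 2 := by
  rw [planch _ (hg.ch s).int ((hg.ch s).memLp 2)]
  simp only [ch_enorm]

end Pool.Agent.H147R3.PE
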