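import Mathlib
import Pool.Agent.H147R3.PE.One
set_option autoImplicit false

/-! The fourth power estimate averaged over a family of times. -/

namespace Pool.Agent.H147R3.PE

open MeasureTheory Set Complex
open scoped ENNReal FourierTransform ComplexConjugate Convolution

lemma FT_meas {Λ : Type*} [MeasurableSpace Λ] (k : Λ → ℝ → ℂ)
    (hk : Measurable fun p : Λ × ℝ => k p.1 p.2) (φ : Λ → ℝ) (hφ : Measurable φ) :
    Measurable fun l => FT (k l) (φ l) := by
  unfold FT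
  have h1 : StronglyMeasurable (fun z : Λ × ℝ =>
      cexp (((-(z.2 * φ z.1) : ℝ) : ℂ) * I) * k z.1 z.2) := by
    apply Measurable.stronglyMeasurable
    have e3 : Measurable (fun z : Λ × ℝ => (-(z.2 * φ z.1) : ℝ)) :=
      (measurable_snd.mul (hφ.comp measurable_fst)).neg
    have e4 : Measurable (fun z : Λ × ℝ => cexp (((-(z.2 * φ z.1) : ℝ) : ℂ) * I)) :=
      Complex.measurable_exp.comp ((Complex.measurable_ofReal.comp e3).mul_const I)
    exact e4.mul hk
  exact (h1.integral_prod_right' (ν := volume)).measurable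

lemma FT_meas1 (k : ℝ → ℂ) (hk : Measurable k) : Measurable (FT k) :=
  FT_meas (fun _ : ℝ => k) (hk.comp measurable_snd) id measurable_id

lemma cs {Λ : Type*} [MeasurableSpace Λ] (μ : Measure Λ) (u : Λ → ℝ≥0∞) (hu : Measurable u) :
    (∫⁻ l, u l ∂μ) ^ 2 ≤ μ univ * ∫⁻ l, u l ^ 2 ∂μ := by
  have h := ENNReal.lintegral_mul_le_Lp_mul_Lq μ (p := 2) (q := 2)
    (Real.HolderConjugate.two_two) (f := fun _ => 1) (g := u) aemeasurable_const hu.aemeasurable
  have e1 : (∫⁻ a, ((fun _ : Λ => (1 : ℝ≥0∞)) * u) a ∂μ) = ∫⁻ l, u l ∂μ := by simp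
  rw [e1] at h
  have h2 := pow_le_pow_left' h 2
  refine h2.trans (le_of_eq ?_)
  rw [mul_pow, ← ENNReal.rpow_natCast, ← ENNReal.rpow_natCast, ← ENNReal.rpow_mul,
    ← ENNReal.rpow_mul]
  norm_num

/-- the weight -/
noncomputable def W (z : ℝ) : ℂ := ∫ s in Icc (-(1 / 2) : ℝ) (1 / 2), cexp (((z * s : ℝ) : ℂ) * I)

lemma W_meas : Measurable W := by
  unfold W
  have h1 : StronglyMeasurable (fun z : ℝ × ℝ => cexp (((z.1 * z.2 : ℝ) : ℂ) * I)) := by
    apply Continuous.stronglyMeasurable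
    fun_prop
  exact (h1.integral_prod_right' (ν := volume.restrict (Icc (-(1 / 2) : ℝ) (1 / 2)))).measurable

lemma W_lb (z : ℝ) (hz : |z| ≤ 1) : 7 / 8 ≤ ‖W z‖ := by
  have h0 : IntegrableOn (fun s : ℝ => cexp (((z * s : ℝ) : ℂ) * I)) (Icc (-(1 / 2) : ℝ) (1 / 2)) :=
    (by fun_prop : Continuous (fun s : ℝ => cexp (((z * s : ℝ) : ℂ) * I))).continuousOn.integrableOn_Icc
  have h1 : (W z).re = ∫ s in Icc (-(1 / 2) : ℝ) (1 / 2), Real.cos (z * s) := by
    unfold W
    have := integral_re h0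
    simp only [RCLike.re_to_complex] at this
    rw [← this]
    apply integral_congr_ae
    refine ae_of_all _ fun s => ?_
    simp only
    rw [Complex.exp_ofReal_mul_I_re]
  have h2 : (∫ s in Icc (-(1 / 2) : ℝ) (1 / 2), (7 / 8 : ℝ)) ≤
      ∫ s in Icc (-(1 / 2) : ℝ) (1 / 2), Real.cos (z * s) := by
    apply setIntegral_mono_on
    · exact integrableOn_const (by simp)
    · exact (by fun_prop : Continuous (fun s : ℝ => Real.cos (z * s))).continuousOn.integrableOn_Icc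
    · exact measurableSet_Icc
    · intro s hs
      have h3 := Real.one_sub_sq_div_two_le_cos (x := z * s)
      have h4 : |z * s| ≤ 1 / 2 := by
        rw [abs_mul]
        have : |s| ≤ 1 / 2 := abs_le.2 hs
        nlinarith [abs_nonneg z, abs_nonneg s]
      have h5 : (z * s) ^ 2 ≤ 1 / 4 := by
        have := abs_le.1 h4
        nlinarith
      linarith
  have h3 : (∫ s in Icc (-(1 / 2) : ℝ) (1 / 2), (7 / 8 : ℝ)) = 7 / 8 := by
    simp
    norm_num
  rw [h3, ← h1] at h2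
  exact h2.trans (Complex.re_le_norm _)

/-- the corrected function -/
noncomputable def kt (k : ℝ → ℂ) (z : ℝ) : ℂ := (W z)⁻¹ * k z

lemma kt_le {M : ℝ} {k : ℝ → ℂ} (hk : BS M k) (z : ℝ) : ‖kt k z‖ ≤ 8 / 7 * ‖k z‖ := by
  unfold kt
  by_cases hz : 1 < |z|
  · rw [hk.supp z hz]
    simp
  · push Not at hz
    rw [norm_mul, norm_inv]
    have h1 := W_lb z hz
    have h2 : ‖W z‖⁻¹ ≤ 8 / 7 := by
      rw [inv_le_comm₀ (by linarith) (by norm_num)]
      norm_num
      exact h1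
    exact mul_le_mul_of_nonneg_right h2 (norm_nonneg _)

lemma kt_BS {M : ℝ} {k : ℝ → ℂ} (hk : BS M k) : BS (8 / 7 * M) (kt k) := by
  refine ⟨W_meas.inv.mul hk.meas, fun z => ?_, fun z hz => ?_⟩
  · exact (kt_le hk z).trans (by linarith [hk.bd z])
  · unfold kt
    rw [hk.supp z hz, mul_zero]

lemma kt_FT {M : ℝ} {k : ℝ → ℂ} (hk : BS M k) (σ : ℝ) :
    FT k σ = ∫ s in Icc (-(1 / 2) : ℝ) (1 / 2), FT (kt k) (σ - s) := by
  unfold FT
  rw [integral_integral_swap]
  · apply integral_congr_ae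
    refine ae_of_all _ fun z => ?_
    simp only
    by_cases hz : 1 < |z|
    · simp [kt, hk.supp z hz]
    · push Not at hz
      have hW : W z ≠ 0 := by
        intro h
        have := W_lb z hz
        rw [h, norm_zero] at this
        norm_num at this
      have e1 : ∀ s : ℝ, cexp (((-(z * (σ - s)) : ℝ) : ℂ) * I) * kt k z =
          cexp (((z * s : ℝ) : ℂ) * I) * (cexp (((-(z * σ) : ℝ) : ℂ) * I) * kt k z) := by
        intro s
        rw [← mul_assoc, ← Complex.exp_add]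
        congr 2
        push_cast
        ring
      simp_rw [e1]
      rw [integral_mul_const]
      change _ = W z * _
      unfold kt
      field_simp
  · have h1 : Integrable (fun p : ℝ × ℝ => (1 : ℂ) * kt k p.2)
        ((volume.restrict (Icc (-(1 / 2) : ℝ) (1 / 2))).prod volume) := by
      have hc : Integrable (fun _ : ℝ => (1 : ℂ)) (volume.restrict (Icc (-(1 / 2) : ℝ) (1 / 2))) :=
        integrableOn_const (by simp)
      exact hc.mul_prod (kt_BS hk).int
    refine h1.mono ?_ (ae_of_all _ fun p => ?_)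
    · apply Measurable.aestronglyMeasurable
      have e3 : Measurable (fun p : ℝ × ℝ => cexp (((-(p.2 * (σ - p.1)) : ℝ) : ℂ) * I)) := by
        fun_prop
      exact e3.mul ((kt_BS hk).meas.comp measurable_snd)
    · simp only [Function.uncurry]
      rw [norm_mul, Complex.norm_exp_ofReal_mul_I, one_mul, one_mul]

lemma pp {Λ : Type*} [MeasurableSpace Λ] (μ : Measure Λ) [SFinite μ] (φ : Λ → ℝ)
    (hφ : Measurable φ) {M : ℝ} {k : ℝ → ℂ} (hk : BS M k) (S : ℝ≥0∞)
    (hS : ∀ σ, μ {l | |φ l - σ| ≤ 1 / 2} ≤ S) :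
    ∫⁻ l, ‖FT k (φ l)‖ₑ ^ 2 ∂μ ≤
      ENNReal.ofReal (2 * Real.pi) * 2 * S * ∫⁻ z, ‖k z‖ₑ ^ 2 := by
  have hkt := kt_BS hk
  have hm := FT_meas1 (kt k) hkt.meas
  have h1 : ∀ l, ‖FT k (φ l)‖ₑ ^ 2 ≤
      ∫⁻ σ, {σ | |φ l - σ| ≤ 1 / 2}.indicator (fun σ => ‖FT (kt k) σ‖ₑ ^ 2) σ := by
    intro l
    rw [kt_FT hk]
    have h2 : ‖∫ s in Icc (-(1 / 2) : ℝ) (1 / 2), FT (kt k) (φ l - s)‖ₑ ≤
        ∫⁻ s in Icc (-(1 / 2) : ℝ) (1 / 2), ‖FT (kt k) (φ l - s)‖ₑ :=
      enorm_integral_le_lintegral_enorm _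
    have h3 := cs (volume.restrict (Icc (-(1 / 2) : ℝ) (1 / 2)))
      (fun s => ‖FT (kt k) (φ l - s)‖ₑ) (hm.comp (measurable_const.sub measurable_id)).enorm
    have h4 : (volume.restrict (Icc (-(1 / 2) : ℝ) (1 / 2))) univ = 1 := by
      rw [Measure.restrict_apply_univ, Real.volume_Icc]
      norm_num
    rw [h4, one_mul] at h3
    refine (pow_le_pow_left' h2 2).trans (h3.trans (le_of_eq ?_))
    rw [← lintegral_indicator measurableSet_Icc, ← lintegral_sub_left_eq_self _ (φ l)]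
    congr 1
    ext s
    by_cases hs : |φ l - s| ≤ 1 / 2
    · have hs' : φ l - s ∈ Icc (-(1 / 2) : ℝ) (1 / 2) := abs_le.1 hs
      rw [indicator_of_mem hs', indicator_of_mem (show s ∈ {σ | |φ l - σ| ≤ 1 / 2} from hs)]
      simp
    · have hs' : φ l - s ∉ Icc (-(1 / 2) : ℝ) (1 / 2) := fun h => hs (abs_le.2 h)
      rw [indicator_of_notMem hs',
        indicator_of_notMem (show s ∉ {σ | |φ l - σ| ≤ 1 / 2} from hs)]
  have hset : MeasurableSet {p : Λ × ℝ | |φ p.1 - p.2| ≤ 1 / 2} :=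
    measurableSet_le ((hφ.comp measurable_fst).sub measurable_snd).abs measurable_const
  have hmm : Measurable (fun p : Λ × ℝ =>
      {p : Λ × ℝ | |φ p.1 - p.2| ≤ 1 / 2}.indicator (fun p => ‖FT (kt k) p.2‖ₑ ^ 2) p) :=
    ((hm.comp measurable_snd).enorm.pow_const 2).indicator hset
  calc ∫⁻ l, ‖FT k (φ l)‖ₑ ^ 2 ∂μ
      ≤ ∫⁻ l, (∫⁻ σ, {σ | |φ l - σ| ≤ 1 / 2}.indicator (fun σ => ‖FT (kt k) σ‖ₑ ^ 2) σ) ∂μ :=
        lintegral_mono h1
    _ = ∫⁻ σ, (∫⁻ l, {σ | |φ l - σ| ≤ 1 / 2}.indicator (fun σ => ‖FT (kt k) σ‖ₑ ^ 2) σ ∂μ) := by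
        apply lintegral_lintegral_swap
        exact hmm.aemeasurable
    _ ≤ ∫⁻ σ, S * ‖FT (kt k) σ‖ₑ ^ 2 := by
        apply lintegral_mono
        intro σ
        have e1 : ∀ l, {σ | |φ l - σ| ≤ 1 / 2}.indicator (fun σ => ‖FT (kt k) σ‖ₑ ^ 2) σ =
            {l | |φ l - σ| ≤ 1 / 2}.indicator (fun _ => ‖FT (kt k) σ‖ₑ ^ 2) l := by
          intro l
          simp only [indicator, mem_ofPred_eq]
        have hs2 : MeasurableSet {l | |φ l - σ| ≤ 1 / 2} :=
          measurableSet_le (hφ.sub measurable_const).abs measurable_const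
        simp only [e1]
        rw [lintegral_indicator hs2, lintegral_const, Measure.restrict_apply_univ, mul_comm]
        gcongr
        exact hS σ
    _ = S * (ENNReal.ofReal (2 * Real.pi) * ∫⁻ z, ‖kt k z‖ₑ ^ 2) := by
        rw [lintegral_const_mul _ (hm.enorm.pow_const 2), planch _ hkt.int (hkt.memLp 2)]
    _ ≤ S * (ENNReal.ofReal (2 * Real.pi) * ∫⁻ z, 2 * ‖k z‖ₑ ^ 2) := by
        gcongr with z
        have h5 := kt_le hk z
        have h6 : ‖kt k z‖ₑ ≤ ENNReal.ofReal (8 / 7) * ‖k z‖ₑ := by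
          rw [← ofReal_norm, ← ofReal_norm, ← ENNReal.ofReal_mul (by norm_num)]
          exact ENNReal.ofReal_le_ofReal h5
        refine (pow_le_pow_left' h6 2).trans ?_
        rw [mul_pow, ← ENNReal.ofReal_pow (by norm_num)]
        gcongr
        rw [show (2 : ℝ≥0∞) = ENNReal.ofReal 2 by simp]
        exact ENNReal.ofReal_le_ofReal (by norm_num)
    _ = _ := by
        rw [lintegral_const_mul _ (hk.meas.enorm.pow_const 2)]
        ring

end Pool.Agent.H147R3.PE
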