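import Mathlib
import Pool.Agent.H147R3.PE.Two
set_option autoImplicit false

/-! The fourth power estimate averaged over a family of times. -/

namespace Pool.Agent.H147R3.PE

open MeasureTheory Set Complex
open scoped ENNReal FourierTransform ComplexConjugate Convolution

lemma kk_sq {M : ℝ} {g : ℝ → ℂ} (hg : BS M g) (h : ℝ) :
    ∫⁻ z, ‖kk g h z‖ₑ ^ 2 ≤ ∫⁻ z, ‖g z‖ₑ ^ 4 := by
  have h1 := ENNReal.lintegral_mul_le_Lp_mul_Lq (volume : Measure ℝ) (p := 2) (q := 2)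
    (Real.HolderConjugate.two_two) (f := fun z => ‖g (z + h)‖ₑ ^ 2) (g := fun z => ‖g z‖ₑ ^ 2)
    ((hg.meas.comp (measurable_add_const h)).enorm.pow_const 2).aemeasurable
    (hg.meas.enorm.pow_const 2).aemeasurable
  have e1 : ∀ z, ‖kk g h z‖ₑ ^ 2 =
      ((fun z => ‖g (z + h)‖ₑ ^ 2) * (fun z => ‖g z‖ₑ ^ 2)) z := by
    intro z
    unfold kk
    rw [enorm_mul, mul_pow]
    have : ‖conj (g z)‖ₑ = ‖g z‖ₑ := by
      rw [← ofReal_norm, ← ofReal_norm, RCLike.norm_conj]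
    rw [this]
    rfl
  simp only [e1]
  refine h1.trans (le_of_eq ?_)
  have e2 : ∀ z, (‖g z‖ₑ ^ 2) ^ (2 : ℝ) = ‖g z‖ₑ ^ 4 := by
    intro z
    rw [← ENNReal.rpow_natCast, ← ENNReal.rpow_natCast, ← ENNReal.rpow_mul]
    norm_num
  simp only [e2]
  rw [lintegral_add_right_eq_self (fun z => ‖g z‖ₑ ^ 4) h, ← ENNReal.rpow_add_of_nonneg _ _
    (by norm_num) (by norm_num)]
  norm_num

lemma kk_jm {M : ℝ} {g : ℝ → ℂ} (hg : BS M g) : Measurable fun p : ℝ × ℝ => kk g p.1 p.2 := by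
  unfold kk
  exact (hg.meas.comp (by fun_prop)).mul
    (continuous_conj.measurable.comp (hg.meas.comp measurable_snd))

/-- the constant of the fourth power estimate -/
noncomputable def c4 : ℝ≥0∞ := ENNReal.ofReal (2 * Real.pi) * (ENNReal.ofReal (2 * Real.pi) * 2)

lemma c4_ne : c4 ≠ ⊤ := by
  unfold c4
  exact ENNReal.mul_ne_top ENNReal.ofReal_ne_top (ENNReal.mul_ne_top ENNReal.ofReal_ne_top (by simp))

theorem L4 {Λ : Type*} [MeasurableSpace Λ] (μ : Measure Λ) [SFinite μ] (φ : Λ → ℝ)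
    (hφ : Measurable φ) {M : ℝ} {g : ℝ → ℂ} (hg : BS M g) (S : ℝ → ℝ≥0∞) (hSm : Measurable S)
    (hS : ∀ h, h ≠ 0 → ∀ σ, μ {l | |2 * φ l * h - σ| ≤ 1 / 2} ≤ S h) :
    ∫⁻ l, (∫⁻ ξ, ‖FT (ch (φ l) g) ξ‖ₑ ^ 4) ∂μ ≤
      c4 * (∫⁻ h in Icc (-2) 2, S h) * ∫⁻ z, ‖g z‖ₑ ^ 4 := by
  simp only [four_ch hg]
  have hm : Measurable (fun p : Λ × ℝ => FT (kk g p.2) (2 * φ p.1 * p.2)) := by
    apply FT_meas (fun p : Λ × ℝ => kk g p.2)
    · exact (kk_jm hg).comp ((measurable_snd.comp measurable_fst).prodMk measurable_snd)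
    · exact ((hφ.comp measurable_fst).const_mul 2).mul measurable_snd
  have hm1 : Measurable (fun l : Λ => ∫⁻ h, ‖FT (kk g h) (2 * φ l * h)‖ₑ ^ 2) :=
    (hm.enorm.pow_const 2).lintegral_prod_right'
  rw [lintegral_const_mul _ hm1, lintegral_lintegral_swap (hm.enorm.pow_const 2).aemeasurable]
  unfold c4
  rw [mul_assoc, mul_assoc, ← lintegral_indicator measurableSet_Icc]
  gcongr
  rw [← lintegral_mul_const _ (hSm.indicator measurableSet_Icc),
    ← lintegral_const_mul _ ((hSm.indicator measurableSet_Icc).mul_const _)]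
  apply lintegral_mono_ae
  have hne : ∀ᵐ h : ℝ, h ≠ 0 := by simp [ae_iff]
  filter_upwards [hne] with h hh
  have h1 := pp μ (fun l => 2 * φ l * h) ((hφ.const_mul 2).mul_const h) (hg.kk h) (S h) (hS h hh)
  refine h1.trans ?_
  by_cases hh2 : |h| ≤ 2
  · rw [indicator_of_mem (show h ∈ Icc (-2 : ℝ) 2 from abs_le.1 hh2), mul_assoc]
    exact mul_le_mul_right (mul_le_mul_right (kk_sq hg h) _) _
  · have e0 : ∀ z, ‖kk g h z‖ₑ ^ 2 = 0 := by
      intro z
      rw [kk_zero hg h (not_le.1 hh2)]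
      simp
    simp [e0]

theorem L4' {Λ : Type*} [MeasurableSpace Λ] (μ : Measure Λ) [SFinite μ] (φ : Λ → ℝ)
    (hφ : Measurable φ) {M : ℝ} {g : ℝ → ℂ} (hg : BS M g) {β : ℝ} (A : ℝ≥0∞)
    (hS : ∀ h, h ≠ 0 → ∀ σ, μ {l | |2 * φ l * h - σ| ≤ 1 / 2} ≤ A * ENNReal.ofReal (|h| ^ (-β))) :
    ∫⁻ l, (∫⁻ ξ, ‖FT (ch (φ l) g) ξ‖ₑ ^ 4) ∂μ ≤
      c4 * (∫⁻ h in Icc (-2 : ℝ) 2, ENNReal.ofReal (|h| ^ (-β))) * A * ∫⁻ z, ‖g z‖ₑ ^ 4 := by
  have hm : Measurable fun h : ℝ => ENNReal.ofReal (|h| ^ (-β)) :=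
    (Measurable.pow_const measurable_norm _).ennreal_ofReal
  have h1 := L4 μ φ hφ hg (fun h => A * ENNReal.ofReal (|h| ^ (-β))) (hm.const_mul A) hS
  refine h1.trans (le_of_eq ?_)
  rw [lintegral_const_mul _ hm]
  ring

lemma rpow_int (β : ℝ) (hβ1 : β < 1) :
    ∫⁻ h in Icc (-2 : ℝ) 2, ENNReal.ofReal (|h| ^ (-β)) < ⊤ := by
  have h1 : IntegrableOn (fun h : ℝ => |h| ^ (-β)) (Icc (-2 : ℝ) 2) := by
    have h2 : IntegrableOn (fun h : ℝ => |h| ^ (-β)) (Ioc 0 2) := by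
      have h3 := intervalIntegral.intervalIntegrable_rpow' (a := 0) (b := 2) (r := -β) (by linarith)
      rw [intervalIntegrable_iff_integrableOn_Ioc_of_le (by norm_num)] at h3
      refine h3.congr_fun (fun x hx => ?_) measurableSet_Ioc
      simp only
      rw [abs_of_pos hx.1]
    have h3 : IntegrableOn (fun h : ℝ => |h| ^ (-β)) (Ico (-2) 0) := by
      have h4 := (integrableOn_Ioc_iff_integrableOn_Ioo (f := fun h : ℝ => |h| ^ (-β))).1 h2
      have h5 : IntegrableOn (fun h : ℝ => |(-h)| ^ (-β)) (Ioo (-2) 0) := by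
        have := (Measure.measurePreserving_neg (volume : Measure ℝ)).integrableOn_comp_preimage
          (MeasurableEquiv.neg ℝ).measurableEmbedding (f := fun h : ℝ => |h| ^ (-β))
          (s := Ioo 0 2)
        rw [← this] at h4
        simpa [Function.comp_def] using h4
      simp only [abs_neg] at h5
      exact (integrableOn_Ico_iff_integrableOn_Ioo).2 h5
    have h4 : IntegrableOn (fun h : ℝ => |h| ^ (-β)) ({0} : Set ℝ) := by
      simp
    refine ((h2.union h3).union h4).mono_set ?_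
    intro x hx
    rcases lt_trichotomy x 0 with h | h | h
    · left; right; exact ⟨hx.1, h⟩
    · right; exact h
    · left; left; exact ⟨h, hx.2⟩
  exact h1.lintegral_lt_top

end Pool.Agent.H147R3.PE
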