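import Mathlib
import Pool.Agent.H147R3.PE.Three
set_option autoImplicit false

/-! Two-dimensional part. -/

namespace Pool.Agent.H147R3.PE

open MeasureTheory Set Complex
open scoped ENNReal FourierTransform ComplexConjugate Convolution

/-- bounded measurable functions on the plane supported in `[-1,1]^2` -/
structure BS2 (M : ℝ) (f : ℝ × ℝ → ℂ) : Prop where
  meas : Measurable f
  bd : ∀ x, ‖f x‖ ≤ M
  supp1 : ∀ x : ℝ × ℝ, 1 < |x.1| → f x = 0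
  supp2 : ∀ x : ℝ × ℝ, 1 < |x.2| → f x = 0

/-- extension in the first variable -/
noncomputable def gg (f : ℝ × ℝ → ℂ) (t ξ z : ℝ) : ℂ := FT (ch t (fun y => f (y, z))) ξ

/-- extension in both variables, with two independent times -/
noncomputable def FF (f : ℝ × ℝ → ℂ) (t t' ξ η : ℝ) : ℂ := FT (ch t' (gg f t ξ)) η

lemma BS2.sec {M : ℝ} {f : ℝ × ℝ → ℂ} (hf : BS2 M f) (z : ℝ) : BS M (fun y => f (y, z)) :=
  ⟨hf.meas.comp (by fun_prop), fun y => hf.bd _, fun y hy => hf.supp1 (y, z) hy⟩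

lemma gg_jm {f : ℝ × ℝ → ℂ} (hf : Measurable f) {Λ : Type*} [MeasurableSpace Λ]
    {a b c : Λ → ℝ} (ha : Measurable a) (hb : Measurable b) (hc : Measurable c) :
    Measurable fun l => gg f (a l) (b l) (c l) := by
  unfold gg
  apply FT_meas (fun l => ch (a l) (fun y => f (y, c l))) _ b hb
  unfold ch
  have e3 : Measurable (fun p : Λ × ℝ => (-(a p.1 * p.2 ^ 2) : ℝ)) :=
    ((ha.comp measurable_fst).mul (measurable_snd.pow_const 2)).neg
  have e4 : Measurable (fun p : Λ × ℝ => cexp (((-(a p.1 * p.2 ^ 2) : ℝ) : ℂ) * I)) :=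
    Complex.measurable_exp.comp ((Complex.measurable_ofReal.comp e3).mul_const I)
  exact e4.mul (hf.comp (measurable_snd.prodMk (hc.comp measurable_fst)))

lemma FF_jm {f : ℝ × ℝ → ℂ} (hf : Measurable f) {Λ : Type*} [MeasurableSpace Λ]
    {a b c d : Λ → ℝ} (ha : Measurable a) (hb : Measurable b) (hc : Measurable c)
    (hd : Measurable d) :
    Measurable fun l => FF f (a l) (b l) (c l) (d l) := by
  unfold FF
  apply FT_meas (fun l => ch (b l) (gg f (a l) (c l))) _ d hd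
  unfold ch
  have e3 : Measurable (fun p : Λ × ℝ => (-(b p.1 * p.2 ^ 2) : ℝ)) :=
    ((hb.comp measurable_fst).mul (measurable_snd.pow_const 2)).neg
  have e4 : Measurable (fun p : Λ × ℝ => cexp (((-(b p.1 * p.2 ^ 2) : ℝ) : ℂ) * I)) :=
    Complex.measurable_exp.comp ((Complex.measurable_ofReal.comp e3).mul_const I)
  exact e4.mul (gg_jm hf (ha.comp measurable_fst) (hc.comp measurable_fst) measurable_snd)

lemma gg_BS {M : ℝ} {f : ℝ × ℝ → ℂ} (hf : BS2 M f) (t ξ : ℝ) : BS (2 * M) (gg f t ξ) := by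
  refine ⟨gg_jm hf.meas measurable_const measurable_const measurable_id, fun z => ?_,
    fun z hz => ?_⟩
  · exact ((hf.sec z).ch t).FT_bd ξ
  · unfold gg FT ch
    have : ∀ y, f (y, z) = 0 := fun y => hf.supp2 (y, z) hz
    simp [this]

lemma FF_bd {M : ℝ} {f : ℝ × ℝ → ℂ} (hf : BS2 M f) (t t' ξ η : ℝ) : ‖FF f t t' ξ η‖ ≤ 4 * M := by
  have := ((gg_BS hf t ξ).ch t').FT_bd η
  unfold FF
  linarith

/-- second moment -/
lemma FF_two {M : ℝ} {f : ℝ × ℝ → ℂ} (hf : BS2 M f) {Λ : Type*} [MeasurableSpace Λ]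
    (μ : Measure Λ) [SFinite μ] (φ : Λ → ℝ) (t : ℝ) :
    ∫⁻ ξ, ∫⁻ l, (∫⁻ η, ‖FF f t (φ l) ξ η‖ₑ ^ 2) ∂μ =
      ENNReal.ofReal (2 * Real.pi) ^ 2 * μ univ * ∫⁻ z, ∫⁻ y, ‖f (y, z)‖ₑ ^ 2 := by
  have e1 : ∀ ξ l, ∫⁻ η, ‖FF f t (φ l) ξ η‖ₑ ^ 2 =
      ENNReal.ofReal (2 * Real.pi) * ∫⁻ z, ‖gg f t ξ z‖ₑ ^ 2 := by
    intro ξ l
    unfold FF
    exact two_ch (gg_BS hf t ξ) (φ l)
  simp only [e1, lintegral_const]
  have hm : Measurable fun p : ℝ × ℝ => ‖gg f t p.1 p.2‖ₑ ^ 2 :=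
    (gg_jm hf.meas measurable_const measurable_fst measurable_snd).enorm.pow_const 2
  rw [lintegral_mul_const _ (hm.lintegral_prod_right'.const_mul _),
    lintegral_const_mul _ hm.lintegral_prod_right', lintegral_lintegral_swap hm.aemeasurable]
  have e2 : ∀ z, ∫⁻ ξ, ‖gg f t ξ z‖ₑ ^ 2 =
      ENNReal.ofReal (2 * Real.pi) * ∫⁻ y, ‖f (y, z)‖ₑ ^ 2 := by
    intro z
    exact two_ch (hf.sec z) t
  simp only [e2]
  have hm2 : Measurable fun p : ℝ × ℝ => ‖f (p.2, p.1)‖ₑ ^ 2 :=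
    (hf.meas.comp measurable_swap).enorm.pow_const 2
  rw [lintegral_const_mul _ hm2.lintegral_prod_right']
  ring

/-- fourth moment -/
lemma FF_four {M : ℝ} {f : ℝ × ℝ → ℂ} (hf : BS2 M f) {Λ : Type*} [MeasurableSpace Λ]
    (μ : Measure Λ) [SFinite μ] (φ : Λ → ℝ) (hφ : Measurable φ) (ν : Measure ℝ) [SFinite ν]
    {β β' : ℝ} (A A' : ℝ≥0∞)
    (hμ : ∀ᵐ t ∂ν, ∀ h, h ≠ 0 → ∀ σ, μ {l | |2 * (t * φ l) * h - σ| ≤ 1 / 2} ≤
      A * ENNReal.ofReal (|h| ^ (-β)))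
    (hν : ∀ h, h ≠ 0 → ∀ σ, ν {t | |2 * t * h - σ| ≤ 1 / 2} ≤
      A' * ENNReal.ofReal (|h| ^ (-β'))) :
    ∫⁻ t, (∫⁻ ξ, ∫⁻ l, (∫⁻ η, ‖FF f t (t * φ l) ξ η‖ₑ ^ 4) ∂μ) ∂ν ≤
      (c4 * (∫⁻ h in Icc (-2 : ℝ) 2, ENNReal.ofReal (|h| ^ (-β))) * A) *
      (c4 * (∫⁻ h in Icc (-2 : ℝ) 2, ENNReal.ofReal (|h| ^ (-β'))) * A') *
        ∫⁻ z, ∫⁻ y, ‖f (y, z)‖ₑ ^ 4 := by
  set J := c4 * (∫⁻ h in Icc (-2 : ℝ) 2, ENNReal.ofReal (|h| ^ (-β))) * A with hJ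
  set J' := c4 * (∫⁻ h in Icc (-2 : ℝ) 2, ENNReal.ofReal (|h| ^ (-β'))) * A' with hJ'
  have hm : Measurable fun p : (ℝ × ℝ) × ℝ => ‖gg f p.1.1 p.1.2 p.2‖ₑ ^ 4 :=
    (gg_jm hf.meas (measurable_fst.comp measurable_fst) (measurable_snd.comp measurable_fst)
      measurable_snd).enorm.pow_const 4
  have hm1 : Measurable fun p : ℝ × ℝ => ∫⁻ z, ‖gg f p.1 p.2 z‖ₑ ^ 4 := hm.lintegral_prod_right'
  calc ∫⁻ t, (∫⁻ ξ, ∫⁻ l, (∫⁻ η, ‖FF f t (t * φ l) ξ η‖ₑ ^ 4) ∂μ) ∂ν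
      ≤ ∫⁻ t, (∫⁻ ξ, J * ∫⁻ z, ‖gg f t ξ z‖ₑ ^ 4) ∂ν := by
        apply lintegral_mono_ae
        filter_upwards [hμ] with t ht
        apply lintegral_mono
        intro ξ
        exact L4' μ (fun l => t * φ l) (hφ.const_mul t) (gg_BS hf t ξ) A ht
    _ = J * ∫⁻ t, (∫⁻ ξ, ∫⁻ z, ‖gg f t ξ z‖ₑ ^ 4) ∂ν := by
        have hmt : ∀ t, Measurable fun ξ => ∫⁻ z, ‖gg f t ξ z‖ₑ ^ 4 := by
          intro t
          have h0 : Measurable fun p : ℝ × ℝ => ‖gg f t p.1 p.2‖ₑ ^ 4 :=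
            (gg_jm hf.meas measurable_const measurable_fst measurable_snd).enorm.pow_const 4
          exact h0.lintegral_prod_right'
        have e1 : ∀ t, ∫⁻ ξ, J * ∫⁻ z, ‖gg f t ξ z‖ₑ ^ 4 = J * ∫⁻ ξ, ∫⁻ z, ‖gg f t ξ z‖ₑ ^ 4 :=
          fun t => lintegral_const_mul _ (hmt t)
        rw [lintegral_congr e1]
        exact lintegral_const_mul _ hm1.lintegral_prod_right'
    _ = J * ∫⁻ z, (∫⁻ t, (∫⁻ ξ, ‖gg f t ξ z‖ₑ ^ 4) ∂ν) := by
        congr 1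
        have hm2 : Measurable fun p : (ℝ × ℝ) × ℝ => ‖gg f p.1.1 p.2 p.1.2‖ₑ ^ 4 :=
          (gg_jm hf.meas (measurable_fst.comp measurable_fst) measurable_snd
            (measurable_snd.comp measurable_fst)).enorm.pow_const 4
        have hm3 : Measurable fun p : ℝ × ℝ => ∫⁻ ξ, ‖gg f p.1 ξ p.2‖ₑ ^ 4 :=
          hm2.lintegral_prod_right'
        have hs : ∀ t, ∫⁻ ξ, ∫⁻ z, ‖gg f t ξ z‖ₑ ^ 4 = ∫⁻ z, ∫⁻ ξ, ‖gg f t ξ z‖ₑ ^ 4 := by
          intro t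
          have h0 : Measurable fun p : ℝ × ℝ => ‖gg f t p.1 p.2‖ₑ ^ 4 :=
            (gg_jm hf.meas measurable_const measurable_fst measurable_snd).enorm.pow_const 4
          exact lintegral_lintegral_swap h0.aemeasurable
        rw [lintegral_congr hs]
        exact lintegral_lintegral_swap hm3.aemeasurable
    _ ≤ J * ∫⁻ z, (J' * ∫⁻ y, ‖f (y, z)‖ₑ ^ 4) := by
        gcongr with z
        exact L4' ν (fun t => t) measurable_id (hf.sec z) A' hν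
    _ = _ := by
        have hm2 : Measurable fun p : ℝ × ℝ => ‖f (p.2, p.1)‖ₑ ^ 4 :=
          (hf.meas.comp measurable_swap).enorm.pow_const 4
        rw [lintegral_const_mul _ hm2.lintegral_prod_right']
        exact (mul_assoc _ _ _).symm

/-- Hölder between the second and the fourth moment -/
lemma holder24 {Λ : Type*} [MeasurableSpace Λ] (P : Measure Λ) (u : Λ → ℝ≥0∞) (hu : Measurable u)
    (q : ℝ) (h2 : 2 < q) (h4 : q < 4) :
    ∫⁻ l, u l ^ q ∂P ≤ (∫⁻ l, u l ^ 2 ∂P) ^ ((4 - q) / 2) * (∫⁻ l, u l ^ 4 ∂P) ^ ((q - 2) / 2) := by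
  have hpq : (2 / (4 - q)).HolderConjugate (2 / (q - 2)) := by
    rw [Real.holderConjugate_iff]
    constructor
    · rw [lt_div_iff₀ (by linarith)]
      linarith
    · rw [inv_div, inv_div]
      ring
  have h := ENNReal.lintegral_mul_le_Lp_mul_Lq P hpq (f := fun l => u l ^ (4 - q))
    (g := fun l => u l ^ (2 * (q - 2))) (hu.pow_const _).aemeasurable (hu.pow_const _).aemeasurable
  have e1 : ∀ l, ((fun l => u l ^ (4 - q)) * (fun l => u l ^ (2 * (q - 2)))) l = u l ^ q := by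
    intro l
    simp only [Pi.mul_apply]
    rw [← ENNReal.rpow_add_of_nonneg _ _ (by linarith) (by linarith)]
    congr 1
    ring
  have e2 : ∀ l, (u l ^ (4 - q)) ^ (2 / (4 - q)) = u l ^ 2 := by
    intro l
    rw [← ENNReal.rpow_mul, ← ENNReal.rpow_natCast]
    congr 1
    have : (4 - q) ≠ 0 := by linarith
    field_simp
    norm_num
  have e3 : ∀ l, (u l ^ (2 * (q - 2))) ^ (2 / (q - 2)) = u l ^ 4 := by
    intro l
    rw [← ENNReal.rpow_mul, ← ENNReal.rpow_natCast]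
    congr 1
    have : (q - 2) ≠ 0 := by linarith
    field_simp
    norm_num
  simp only [e1, e2, e3] at h
  rw [one_div_div, one_div_div] at h
  exact h

end Pool.Agent.H147R3.PE
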