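import Mathlib
import Pool.Agent.H147R3.PE.Four
set_option autoImplicit false

/-! Block estimates and summation over the dyadic blocks of the time. -/

namespace Pool.Agent.H147R3.PE

open MeasureTheory Set Complex
open scoped ENNReal FourierTransform ComplexConjugate Convolution

/-- the dyadic block of times -/
def SS (T : ℝ) : Set ℝ := {t | T ≤ |t| ∧ |t| < 2 * T}

lemma SS_meas (T : ℝ) : MeasurableSet (SS T) :=
  (measurableSet_le measurable_const measurable_norm).inter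
    (measurableSet_lt measurable_norm measurable_const)

lemma SS_vol (T : ℝ) : volume (SS T) ≤ ENNReal.ofReal (4 * T) := by
  have h1 : SS T ⊆ Icc (-(2 * T)) (2 * T) := fun t ht => abs_le.1 ht.2.le
  refine (measure_mono h1).trans (le_of_eq ?_)
  rw [Real.volume_Icc]
  congr 1
  ring

lemma SS_nu {T : ℝ} (hT : 0 < T) {β : ℝ} (hβ0 : 0 < β) (hβ1 : β < 1) (h : ℝ) (hh : h ≠ 0) (σ : ℝ) :
    (volume.restrict (SS T)) {t | |2 * t * h - σ| ≤ 1 / 2} ≤
      ENNReal.ofReal (4 * T ^ (1 - β)) * ENNReal.ofReal (|h| ^ (-β)) := by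
  have hh' : 0 < |h| := abs_pos.2 hh
  have hm : MeasurableSet {t : ℝ | |2 * t * h - σ| ≤ 1 / 2} := by
    apply measurableSet_le _ measurable_const
    exact (((measurable_id.const_mul 2).mul_const h).sub_const σ).abs
  rw [Measure.restrict_apply hm, ← ENNReal.ofReal_mul (by positivity)]
  have hβT : T ^ (1 - β) = T * T ^ (-β) := by
    rw [← Real.rpow_one_add' hT.le (by linarith)]
    ring_nf
  by_cases hc : |h| * T ≤ 1
  · refine (measure_mono inter_subset_right).trans ((SS_vol T).trans ?_)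
    apply ENNReal.ofReal_le_ofReal
    have h1 : 1 ≤ T ^ (-β) * |h| ^ (-β) := by
      rw [← Real.mul_rpow hT.le hh'.le, mul_comm T]
      exact Real.one_le_rpow_of_pos_of_le_one_of_nonpos (by positivity) hc (by linarith)
    rw [hβT]
    have : 4 * (T * T ^ (-β)) * |h| ^ (-β) = 4 * T * (T ^ (-β) * |h| ^ (-β)) := by ring
    rw [this]
    nlinarith
  · push Not at hc
    have h1 : {t : ℝ | |2 * t * h - σ| ≤ 1 / 2} ⊆ Metric.closedBall (σ / (2 * h)) (1 / (4 * |h|)) := by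
      intro t ht
      rw [Metric.mem_closedBall, Real.dist_eq]
      have h2 : |2 * t * h - σ| = 2 * |h| * |t - σ / (2 * h)| := by
        have : 2 * t * h - σ = 2 * h * (t - σ / (2 * h)) := by
          field_simp
        rw [this, abs_mul, abs_mul]
        norm_num
      have h3 : |2 * t * h - σ| ≤ 1 / 2 := ht
      rw [h2] at h3
      rw [le_div_iff₀ (by positivity)]
      linarith
    refine (measure_mono (inter_subset_left.trans h1)).trans ?_
    rw [Real.volume_closedBall]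
    apply ENNReal.ofReal_le_ofReal
    have h2 : (T * |h|) ^ (-(1 - β)) ≤ 1 := by
      apply Real.rpow_le_one_of_one_le_of_nonpos
      · linarith [mul_comm T |h|]
      · linarith
    have h3 : (T * |h|) ^ (-(1 - β)) * (T ^ (1 - β) * |h| ^ (-β)) = |h|⁻¹ := by
      rw [Real.mul_rpow hT.le hh'.le]
      have e1 : T ^ (-(1 - β)) * T ^ (1 - β) = 1 := by
        rw [← Real.rpow_add hT]
        simp
      have e2 : |h| ^ (-(1 - β)) * |h| ^ (-β) = |h|⁻¹ := by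
        rw [← Real.rpow_add hh', ← Real.rpow_neg_one]
        congr 1
        ring
      calc _ = (T ^ (-(1 - β)) * T ^ (1 - β)) * (|h| ^ (-(1 - β)) * |h| ^ (-β)) := by ring
        _ = _ := by rw [e1, e2, one_mul]
    have h4 : 0 ≤ T ^ (1 - β) * |h| ^ (-β) := by positivity
    have h5 : |h|⁻¹ ≤ T ^ (1 - β) * |h| ^ (-β) := by
      rw [← h3]
      nlinarith
    have h6 : 2 * (1 / (4 * |h|)) = |h|⁻¹ / 2 := by
      field_simp
      norm_num
    rw [h6]
    have h7 : 0 < |h|⁻¹ := by positivity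
    nlinarith

lemma nest {Λ : Type*} [MeasurableSpace Λ] (μ : Measure Λ) [SFinite μ] (ν : Measure ℝ) [SFinite ν]
    (u : ℝ → ℝ → Λ → ℝ → ℝ≥0∞)
    (hu : Measurable fun p : ℝ × ℝ × Λ × ℝ => u p.1 p.2.1 p.2.2.1 p.2.2.2) :
    ∫⁻ p : ℝ × ℝ × Λ × ℝ, u p.1 p.2.1 p.2.2.1 p.2.2.2 ∂(ν.prod (volume.prod (μ.prod volume))) =
      ∫⁻ t, (∫⁻ ξ, ∫⁻ l, (∫⁻ η, u t ξ l η) ∂μ) ∂ν := by
  rw [lintegral_prod _ hu.aemeasurable]
  apply lintegral_congr
  intro t
  have hu1 : Measurable fun p : ℝ × Λ × ℝ => u t p.1 p.2.1 p.2.2 := by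
    have := hu.comp (measurable_const (a := t) |>.prodMk (measurable_id (α := ℝ × Λ × ℝ)))
    exact this
  rw [lintegral_prod _ hu1.aemeasurable]
  apply lintegral_congr
  intro ξ
  have hu2 : Measurable fun p : Λ × ℝ => u t ξ p.1 p.2 := by
    have := hu1.comp (measurable_const (a := ξ) |>.prodMk (measurable_id (α := Λ × ℝ)))
    exact this
  rw [lintegral_prod _ hu2.aemeasurable]

/-- the `q`-th moment at time `t` -/
noncomputable def HH {Λ : Type*} [MeasurableSpace Λ] (μ : Measure Λ) (φ : Λ → ℝ)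
    (f : ℝ × ℝ → ℂ) (q : ℝ) (t : ℝ) : ℝ≥0∞ :=
  ∫⁻ ξ, ∫⁻ l, (∫⁻ η, ‖FF f t (t * φ l) ξ η‖ₑ ^ q) ∂μ

lemma HH_holder {Λ : Type*} [MeasurableSpace Λ] (μ : Measure Λ) [SFinite μ] (ν : Measure ℝ)
    [SFinite ν] (φ : Λ → ℝ) (hφ : Measurable φ) {f : ℝ × ℝ → ℂ} (hf : Measurable f)
    (q : ℝ) (h2 : 2 < q) (h4 : q < 4) :
    ∫⁻ t, HH μ φ f q t ∂ν ≤
      (∫⁻ t, (∫⁻ ξ, ∫⁻ l, (∫⁻ η, ‖FF f t (t * φ l) ξ η‖ₑ ^ 2) ∂μ) ∂ν) ^ ((4 - q) / 2) *
      (∫⁻ t, (∫⁻ ξ, ∫⁻ l, (∫⁻ η, ‖FF f t (t * φ l) ξ η‖ₑ ^ 4) ∂μ) ∂ν) ^ ((q - 2) / 2) := by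
  have hm : Measurable fun p : ℝ × ℝ × Λ × ℝ => FF f p.1 (p.1 * φ p.2.2.1) p.2.1 p.2.2.2 := by
    apply FF_jm hf
    · exact measurable_fst
    · exact measurable_fst.mul (hφ.comp (measurable_fst.comp (measurable_snd.comp measurable_snd)))
    · exact measurable_fst.comp measurable_snd
    · exact measurable_snd.comp (measurable_snd.comp measurable_snd)
  have h := holder24 (ν.prod (volume.prod (μ.prod volume)))
    (fun p : ℝ × ℝ × Λ × ℝ => ‖FF f p.1 (p.1 * φ p.2.2.1) p.2.1 p.2.2.2‖ₑ) hm.enorm q h2 h4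
  rw [nest μ ν (fun t ξ l η => ‖FF f t (t * φ l) ξ η‖ₑ ^ q) (hm.enorm.pow_const _),
    nest μ ν (fun t ξ l η => ‖FF f t (t * φ l) ξ η‖ₑ ^ 2) (hm.enorm.pow_const _),
    nest μ ν (fun t ξ l η => ‖FF f t (t * φ l) ξ η‖ₑ ^ 4) (hm.enorm.pow_const _)] at h
  exact h

end Pool.Agent.H147R3.PE
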