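import Mathlib
import Pool.Agent.H147R3.PE.Five
set_option autoImplicit false

/-! Block estimates and summation over the dyadic blocks of the time. -/

namespace Pool.Agent.H147R3.PE

open MeasureTheory Set Complex
open scoped ENNReal FourierTransform ComplexConjugate Convolution

noncomputable def N1 (f : ℝ × ℝ → ℂ) : ℝ≥0∞ := ∫⁻ z, ∫⁻ y, ‖f (y, z)‖ₑ
noncomputable def N2 (f : ℝ × ℝ → ℂ) : ℝ≥0∞ := ∫⁻ z, ∫⁻ y, ‖f (y, z)‖ₑ ^ 2
noncomputable def N4 (f : ℝ × ℝ → ℂ) : ℝ≥0∞ := ∫⁻ z, ∫⁻ y, ‖f (y, z)‖ₑ ^ 4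

noncomputable def Iβ (β : ℝ) : ℝ≥0∞ := ∫⁻ h in Icc (-2 : ℝ) 2, ENNReal.ofReal (|h| ^ (-β))

/-- the hypothesis on the measure and on the family of second times -/
def HB {Λ : Type*} [MeasurableSpace Λ] (μ : Measure Λ) (φ : Λ → ℝ) (α : ℝ) (A : ℝ≥0∞) : Prop :=
  ∀ t : ℝ, t ≠ 0 → ∀ h, h ≠ 0 → ∀ σ, μ {l | |2 * (t * φ l) * h - σ| ≤ 1 / 2} ≤
    A * ENNReal.ofReal (|t| ^ (-α)) * ENNReal.ofReal (|h| ^ (-α))

lemma alg (K2 K4 n2 n4 : ℝ≥0∞) (T a b c : ℝ) (hT : 0 < T) (ha : 0 ≤ a) (hb : 0 ≤ b) :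
    (K2 * ENNReal.ofReal T * n2) ^ a * (K4 * ENNReal.ofReal (T ^ c) * n4) ^ b =
      K2 ^ a * K4 ^ b * ENNReal.ofReal (T ^ (a + c * b)) * (n2 ^ a * n4 ^ b) := by
  rw [ENNReal.mul_rpow_of_nonneg _ _ ha, ENNReal.mul_rpow_of_nonneg _ _ ha,
    ENNReal.mul_rpow_of_nonneg _ _ hb, ENNReal.mul_rpow_of_nonneg _ _ hb,
    Real.rpow_add hT, ENNReal.ofReal_mul (by positivity), Real.rpow_mul hT.le,
    ENNReal.ofReal_rpow_of_pos hT, ENNReal.ofReal_rpow_of_pos (by positivity)]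
  ring

theorem block {Λ : Type*} [MeasurableSpace Λ] (μ : Measure Λ) [SFinite μ] (φ : Λ → ℝ)
    (hφ : Measurable φ) {α β : ℝ} (hα : 0 < α) (hβ0 : 0 < β) (hβ1 : β < 1) (A : ℝ≥0∞)
    (hB : HB μ φ α A) {M : ℝ} {f : ℝ × ℝ → ℂ} (hf : BS2 M f) (q : ℝ) (h2 : 2 < q) (h4 : q < 4)
    (T : ℝ) (hT : 0 < T) :
    ∫⁻ t in SS T, HH μ φ f q t ≤
      (ENNReal.ofReal (2 * Real.pi) ^ 2 * μ univ * ENNReal.ofReal 4) ^ ((4 - q) / 2) *
      ((c4 * Iβ α * A) * (c4 * Iβ β * ENNReal.ofReal 4)) ^ ((q - 2) / 2) *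
      ENNReal.ofReal (T ^ ((4 - q) / 2 + (1 - α - β) * ((q - 2) / 2))) *
      (N2 f ^ ((4 - q) / 2) * N4 f ^ ((q - 2) / 2)) := by
  refine (HH_holder μ (volume.restrict (SS T)) φ hφ hf.meas q h2 h4).trans ?_
  rw [← alg _ _ _ _ T _ _ _ hT (by linarith) (by linarith)]
  have hT' : ENNReal.ofReal (T ^ (1 - α - β)) =
      ENNReal.ofReal (T ^ (-α)) * ENNReal.ofReal (T ^ (1 - β)) := by
    rw [← ENNReal.ofReal_mul (by positivity), ← Real.rpow_add hT]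
    congr 2
    ring
  refine mul_le_mul' (ENNReal.rpow_le_rpow ?_ (by linarith)) (ENNReal.rpow_le_rpow ?_ (by linarith))
  · have e1 : ∀ t, (∫⁻ ξ, ∫⁻ l, (∫⁻ η, ‖FF f t (t * φ l) ξ η‖ₑ ^ 2) ∂μ) =
        ENNReal.ofReal (2 * Real.pi) ^ 2 * μ univ * N2 f :=
      fun t => FF_two hf μ (fun l => t * φ l) t
    rw [lintegral_congr e1, lintegral_const, Measure.restrict_apply_univ]
    calc _ ≤ ENNReal.ofReal (2 * Real.pi) ^ 2 * μ univ * N2 f * ENNReal.ofReal (4 * T) := by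
          gcongr
          exact SS_vol T
      _ = _ := by
          rw [ENNReal.ofReal_mul (p := 4) (by norm_num)]
          ring
  · have h5 := FF_four hf μ φ hφ (volume.restrict (SS T)) (β := α) (β' := β)
      (A * ENNReal.ofReal (T ^ (-α))) (ENNReal.ofReal (4 * T ^ (1 - β))) ?_ ?_
    · refine h5.trans (le_of_eq ?_)
      rw [hT', ENNReal.ofReal_mul (p := 4) (by norm_num)]
      unfold Iβ N4
      ring
    · rw [ae_restrict_iff' (SS_meas T)]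
      refine ae_of_all _ fun t ht h hh σ => ?_
      have ht0 : 0 < |t| := hT.trans_le ht.1
      refine (hB t (abs_pos.1 ht0) h hh σ).trans ?_
      gcongr ?_ * ?_ * ?_
      · exact le_refl _
      · apply ENNReal.ofReal_le_ofReal
        exact Real.rpow_le_rpow_of_nonpos hT ht.1 (by linarith)
      · exact le_refl _
    · intro h hh σ
      exact SS_nu hT hβ0 hβ1 h hh σ

lemma FT_le (k : ℝ → ℂ) (ξ : ℝ) : ‖FT k ξ‖ₑ ≤ ∫⁻ z, ‖k z‖ₑ := by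
  unfold FT
  refine (enorm_integral_le_lintegral_enorm _).trans (lintegral_mono fun z => ?_)
  rw [enorm_mul]
  have : ‖cexp (((-(z * ξ) : ℝ) : ℂ) * I)‖ₑ = 1 := by
    rw [← ofReal_norm, Complex.norm_exp_ofReal_mul_I, ENNReal.ofReal_one]
  rw [this, one_mul]

lemma FF_le (f : ℝ × ℝ → ℂ) (t t' ξ η : ℝ) : ‖FF f t t' ξ η‖ₑ ≤ N1 f := by
  unfold FF N1
  refine (FT_le _ _).trans (lintegral_mono fun z => ?_)
  rw [ch_enorm]
  unfold gg
  refine (FT_le _ _).trans (lintegral_mono fun y => ?_)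
  rw [ch_enorm]

/-- small times -/
lemma small {Λ : Type*} [MeasurableSpace Λ] (μ : Measure Λ) [SFinite μ] (φ : Λ → ℝ)
    {M : ℝ} {f : ℝ × ℝ → ℂ} (hf : BS2 M f) (q : ℝ) (h2 : 2 < q) :
    ∫⁻ t in Icc (-1 : ℝ) 1, HH μ φ f q t ≤
      (ENNReal.ofReal (2 * Real.pi) ^ 2 * μ univ * 2) * (N1 f ^ (q - 2) * N2 f) := by
  have e1 : ∀ t, HH μ φ f q t ≤
      N1 f ^ (q - 2) * (ENNReal.ofReal (2 * Real.pi) ^ 2 * μ univ * N2 f) := by
    intro t
    unfold HH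
    have e2 : ∀ ξ l η, ‖FF f t (t * φ l) ξ η‖ₑ ^ q ≤
        N1 f ^ (q - 2) * ‖FF f t (t * φ l) ξ η‖ₑ ^ 2 := by
      intro ξ l η
      have : ‖FF f t (t * φ l) ξ η‖ₑ ^ q =
          ‖FF f t (t * φ l) ξ η‖ₑ ^ (q - 2) * ‖FF f t (t * φ l) ξ η‖ₑ ^ 2 := by
        rw [← ENNReal.rpow_natCast, ← ENNReal.rpow_add_of_nonneg _ _ (by linarith) (by norm_num)]
        congr 1
        norm_num
      rw [this]
      exact mul_le_mul' (ENNReal.rpow_le_rpow (FF_le f t _ ξ η) (by linarith)) le_rfl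
    have hfin : N1 f ^ (q - 2) ≠ ⊤ := by
      apply ENNReal.rpow_ne_top_of_nonneg (by linarith)
      have h3 : N1 f ≤ ∫⁻ z in Icc (-1 : ℝ) 1, ∫⁻ y in Icc (-1 : ℝ) 1, ENNReal.ofReal M := by
        unfold N1
        rw [← lintegral_indicator measurableSet_Icc]
        apply lintegral_mono
        intro z
        by_cases hz : z ∈ Icc (-1 : ℝ) 1
        · rw [indicator_of_mem hz, ← lintegral_indicator measurableSet_Icc]
          apply lintegral_mono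
          intro y
          simp only
          by_cases hy : y ∈ Icc (-1 : ℝ) 1
          · rw [indicator_of_mem hy, ← ofReal_norm]
            exact ENNReal.ofReal_le_ofReal (hf.bd _)
          · rw [indicator_of_notMem hy, hf.supp1 (y, z) (by rw [← not_le, abs_le]; exact hy)]
            simp
        · rw [indicator_of_notMem hz]
          have : ∀ y, f (y, z) = 0 := fun y => hf.supp2 (y, z) (by rw [← not_le, abs_le]; exact hz)
          simp [this]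
      refine ne_top_of_le_ne_top ?_ h3
      simp only [lintegral_const, Measure.restrict_apply_univ, Real.volume_Icc]
      exact ENNReal.mul_ne_top (ENNReal.mul_ne_top ENNReal.ofReal_ne_top ENNReal.ofReal_ne_top)
        ENNReal.ofReal_ne_top
    calc ∫⁻ ξ, ∫⁻ l, (∫⁻ η, ‖FF f t (t * φ l) ξ η‖ₑ ^ q) ∂μ
        ≤ ∫⁻ ξ, ∫⁻ l, (∫⁻ η, N1 f ^ (q - 2) * ‖FF f t (t * φ l) ξ η‖ₑ ^ 2) ∂μ := by
          gcongr with ξ l η
          exact e2 ξ l η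
      _ = N1 f ^ (q - 2) * ∫⁻ ξ, ∫⁻ l, (∫⁻ η, ‖FF f t (t * φ l) ξ η‖ₑ ^ 2) ∂μ := by
          simp only [lintegral_const_mul' _ _ hfin]
      _ = _ := by
          rw [FF_two hf μ (fun l => t * φ l) t]
          rfl
  calc ∫⁻ t in Icc (-1 : ℝ) 1, HH μ φ f q t
      ≤ ∫⁻ t in Icc (-1 : ℝ) 1,
        N1 f ^ (q - 2) * (ENNReal.ofReal (2 * Real.pi) ^ 2 * μ univ * N2 f) :=
        lintegral_mono e1
    _ = _ := by
        rw [lintegral_const, Measure.restrict_apply_univ, Real.volume_Icc]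
        have : ENNReal.ofReal (1 - -1) = 2 := by norm_num
        rw [this]
        ring

lemma cover : (univ : Set ℝ) ⊆ Icc (-1 : ℝ) 1 ∪ ⋃ j : ℕ, SS ((2 : ℝ) ^ j) := by
  intro t _
  by_cases h : |t| ≤ 1
  · left
    exact abs_le.1 h
  · right
    push Not at h
    obtain ⟨j, hj1, hj2⟩ := exists_nat_pow_near h.le (by norm_num : (1 : ℝ) < 2)
    rw [mem_iUnion]
    refine ⟨j, hj1, ?_⟩
    rw [pow_succ] at hj2
    linarith

theorem total {Λ : Type*} [MeasurableSpace Λ] (μ : Measure Λ) [IsFiniteMeasure μ] (φ : Λ → ℝ)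
    (hφ : Measurable φ) {α β : ℝ} (hα : 0 < α) (hβ0 : 0 < β) (hβ1 : β < 1) (A : ℝ≥0∞)
    (hB : HB μ φ α A) {M : ℝ} {f : ℝ × ℝ → ℂ} (hf : BS2 M f) (q : ℝ) (h2 : 2 < q) (h4 : q < 4) :
    ∫⁻ t, HH μ φ f q t ≤
      (ENNReal.ofReal (2 * Real.pi) ^ 2 * μ univ * 2) * (N1 f ^ (q - 2) * N2 f) +
      (∑' j : ℕ, ENNReal.ofReal (((2 : ℝ) ^ j) ^ ((4 - q) / 2 + (1 - α - β) * ((q - 2) / 2)))) *
      ((ENNReal.ofReal (2 * Real.pi) ^ 2 * μ univ * ENNReal.ofReal 4) ^ ((4 - q) / 2) *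
      ((c4 * Iβ α * A) * (c4 * Iβ β * ENNReal.ofReal 4)) ^ ((q - 2) / 2)) *
      (N2 f ^ ((4 - q) / 2) * N4 f ^ ((q - 2) / 2)) := by
  have h1 : ∫⁻ t, HH μ φ f q t ≤ (∫⁻ t in Icc (-1 : ℝ) 1, HH μ φ f q t) +
      ∑' j : ℕ, ∫⁻ t in SS ((2 : ℝ) ^ j), HH μ φ f q t := by
    rw [← setLIntegral_univ]
    refine (lintegral_mono_set cover).trans ((lintegral_union_le _ _ _).trans ?_)
    exact add_le_add le_rfl (lintegral_iUnion_le _ _)
  refine h1.trans (add_le_add (small μ φ hf q h2) ?_)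
  rw [← ENNReal.tsum_mul_right, ← ENNReal.tsum_mul_right]
  apply ENNReal.tsum_le_tsum
  intro j
  refine (block μ φ hφ hα hβ0 hβ1 A hB hf q h2 h4 ((2 : ℝ) ^ j) (by positivity)).trans
    (le_of_eq ?_)
  ring

end Pool.Agent.H147R3.PE
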