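import Mathlib
import Pool.Agent.H147R3.PE.Six
set_option autoImplicit false

/-! Frostman measures, the single level estimate. -/

namespace Pool.Agent.H147R3.PE

open MeasureTheory Set Complex
open scoped ENNReal FourierTransform ComplexConjugate Convolution

/-- Frostman measures satisfy the hypothesis `HB` for the times `t / l ^ 2`. -/
lemma frost (μ : Measure ℝ) (A α α' L : ℝ) (hA : 0 ≤ A) (hα' : 0 < α') (hαα : α' ≤ α)
    (hα1 : α ≤ 1) (hL : 1 ≤ L)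
    (hμ : ∀ a r : ℝ, 0 < r → μ (Icc a (a + r)) ≤ ENNReal.ofReal (A * r ^ α)) :
    HB (μ.restrict (Icc 1 L)) (fun l => (l ^ 2)⁻¹) α' (ENNReal.ofReal (A * L ^ 5)) := by
  intro t ht h hh σ
  have ht' : 0 < |t| := abs_pos.2 ht
  have hh' : 0 < |h| := abs_pos.2 hh
  have hm : MeasurableSet {l : ℝ | |2 * (t * (l ^ 2)⁻¹) * h - σ| ≤ 1 / 2} := by
    apply measurableSet_le _ measurable_const
    exact (((((measurable_id.pow_const 2).inv.const_mul t).const_mul 2).mul_const h).sub_const σ).abs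
  rw [Measure.restrict_apply hm]
  by_cases hemp : ({l : ℝ | |2 * (t * (l ^ 2)⁻¹) * h - σ| ≤ 1 / 2} ∩ Icc 1 L).Nonempty
  swap
  · rw [not_nonempty_iff_eq_empty.1 hemp]
    simp
  obtain ⟨l₀, hl₀, hl₀'⟩ := hemp
  set ρ := L ^ 4 / (4 * (|t| * |h|)) with hρ
  have hL0 : 0 < L := by linarith
  have hρ0 : 0 < ρ := by positivity
  have hsub : {l : ℝ | |2 * (t * (l ^ 2)⁻¹) * h - σ| ≤ 1 / 2} ∩ Icc 1 L ⊆
      Icc (l₀ - ρ) (l₀ - ρ + 2 * ρ) ∩ Icc 1 (1 + L) := by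
    rintro l ⟨hl, hl'⟩
    refine ⟨?_, hl'.1, by linarith [hl'.2]⟩
    have hl₀a : |2 * (t * (l₀ ^ 2)⁻¹) * h - σ| ≤ 1 / 2 := hl₀
    have hla : |2 * (t * (l ^ 2)⁻¹) * h - σ| ≤ 1 / 2 := hl
    have h1 : |2 * (t * (l ^ 2)⁻¹) * h - 2 * (t * (l₀ ^ 2)⁻¹) * h| ≤ 1 := by
      have := abs_sub_le (2 * (t * (l ^ 2)⁻¹) * h) σ (2 * (t * (l₀ ^ 2)⁻¹) * h)
      rw [abs_sub_comm σ] at this
      linarith
    have hl0 : 0 < l := by linarith [hl'.1]
    have hl₀0 : 0 < l₀ := by linarith [hl₀'.1]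
    have h2 : 2 * (t * (l ^ 2)⁻¹) * h - 2 * (t * (l₀ ^ 2)⁻¹) * h =
        2 * t * h * ((l₀ - l) * ((l₀ + l) / (l ^ 2 * l₀ ^ 2))) := by
      field_simp
      ring
    rw [h2, abs_mul, abs_mul, abs_mul, abs_mul, abs_of_pos (show (0 : ℝ) < 2 by norm_num),
      abs_of_pos (show (0 : ℝ) < (l₀ + l) / (l ^ 2 * l₀ ^ 2) by positivity)] at h1
    have h3 : 2 / L ^ 4 ≤ (l₀ + l) / (l ^ 2 * l₀ ^ 2) := by
      rw [div_le_div_iff₀ (by positivity) (by positivity)]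
      have a1 : l ^ 2 ≤ L ^ 2 := pow_le_pow_left₀ hl0.le hl'.2 2
      have a2 : l₀ ^ 2 ≤ L ^ 2 := pow_le_pow_left₀ hl₀0.le hl₀'.2 2
      have a3 : l ^ 2 * l₀ ^ 2 ≤ L ^ 4 := by
        calc _ ≤ L ^ 2 * L ^ 2 := mul_le_mul a1 a2 (by positivity) (by positivity)
          _ = _ := by ring
      have a4 : 2 ≤ l₀ + l := by linarith [hl'.1, hl₀'.1]
      calc 2 * (l ^ 2 * l₀ ^ 2) ≤ 2 * L ^ 4 := by linarith
        _ ≤ (l₀ + l) * L ^ 4 := by
          have : 0 < L ^ 4 := by positivity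
          nlinarith
    have h4 : |l₀ - l| ≤ ρ := by
      rw [hρ, le_div_iff₀ (by positivity)]
      have h5 : 2 * |t| * |h| * (|l₀ - l| * (2 / L ^ 4)) ≤ 1 := by
        refine le_trans ?_ h1
        gcongr
      have h6 : 2 * |t| * |h| * (|l₀ - l| * (2 / L ^ 4)) = |l₀ - l| * (4 * (|t| * |h|)) / L ^ 4 := by
        field_simp
        ring
      rw [h6, div_le_one (by positivity)] at h5
      exact h5
    have h5 := abs_le.1 h4
    exact ⟨by linarith, by linarith⟩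
  have hA1 : A * L * (2 * ρ) ^ α' ≤ A * L ^ 5 * |t| ^ (-α') * |h| ^ (-α') := by
    have e1 : (2 * ρ) ^ α' = (L ^ 4 / 2) ^ α' * (|t| ^ (-α') * |h| ^ (-α')) := by
      rw [← Real.mul_rpow ht'.le hh'.le, Real.rpow_neg (by positivity), ← Real.inv_rpow (by positivity),
        ← Real.mul_rpow (by positivity) (by positivity)]
      congr 1
      rw [hρ]
      field_simp
      norm_num
    have e2 : (L ^ 4 / 2) ^ α' ≤ L ^ 4 := by
      have hL4 : 1 ≤ L ^ 4 := one_le_pow₀ hL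
      calc (L ^ 4 / 2) ^ α' ≤ (L ^ 4) ^ α' :=
            Real.rpow_le_rpow (by positivity) (by linarith) hα'.le
        _ ≤ (L ^ 4) ^ (1 : ℝ) := Real.rpow_le_rpow_of_exponent_le hL4 (by linarith)
        _ = _ := Real.rpow_one _
    rw [e1]
    calc A * L * ((L ^ 4 / 2) ^ α' * (|t| ^ (-α') * |h| ^ (-α')))
        ≤ A * L * (L ^ 4 * (|t| ^ (-α') * |h| ^ (-α'))) := by gcongr
      _ = _ := by ring
  rw [← ENNReal.ofReal_mul (by positivity), ← ENNReal.ofReal_mul (by positivity)]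
  refine (measure_mono hsub).trans (le_trans ?_ (ENNReal.ofReal_le_ofReal hA1))
  by_cases hc : 2 * ρ ≤ 1
  · refine (measure_mono inter_subset_left).trans ((hμ _ _ (by positivity)).trans ?_)
    apply ENNReal.ofReal_le_ofReal
    have e1 : (2 * ρ) ^ α ≤ (2 * ρ) ^ α' :=
      Real.rpow_le_rpow_of_exponent_ge (by positivity) hc hαα
    have e2 : 0 ≤ (2 * ρ) ^ α' := by positivity
    calc A * (2 * ρ) ^ α ≤ A * (2 * ρ) ^ α' := by gcongr
      _ ≤ A * L * (2 * ρ) ^ α' := by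
        apply mul_le_mul_of_nonneg_right _ e2
        nlinarith
  · push Not at hc
    refine (measure_mono inter_subset_right).trans ((hμ _ _ hL0).trans ?_)
    apply ENNReal.ofReal_le_ofReal
    have e1 : 1 ≤ (2 * ρ) ^ α' := Real.one_le_rpow hc.le hα'.le
    have e2 : L ^ α ≤ L := by
      calc L ^ α ≤ L ^ (1 : ℝ) := Real.rpow_le_rpow_of_exponent_le hL hα1
        _ = L := Real.rpow_one L
    have e3 : 0 ≤ A * L := by positivity
    calc A * L ^ α ≤ A * L := by gcongr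
      _ ≤ A * L * (2 * ρ) ^ α' := by nlinarith

/-- The constants of the total estimate are finite. -/
lemma consts (α q : ℝ) (hα0 : 0 < α) (hα1 : α ≤ 1) (hq : 2 + 2 / (1 + α) < q) (hq4 : q < 4) :
    ∃ α' β : ℝ, 0 < α' ∧ α' ≤ α ∧ α' < 1 ∧ 0 < β ∧ β < 1 ∧
      (4 - q) / 2 + (1 - α' - β) * ((q - 2) / 2) < 0 := by
  have h1 : 2 < (q - 2) * (1 + α) := by
    have h2 : 2 / (1 + α) < q - 2 := by linarith
    rwa [div_lt_iff₀ (by linarith)] at h2
  set D := α * (q - 2) - (4 - q) with hD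
  have hD0 : 0 < D := by
    rw [hD]
    nlinarith
  have hD1 : D ≤ 2 := by
    rw [hD]
    nlinarith
  refine ⟨α * (1 - D / 8), 1 - D / 8, ?_, ?_, ?_, ?_, ?_, ?_⟩
  · apply mul_pos hα0
    linarith
  · nlinarith
  · nlinarith
  · linarith
  · linarith
  · have h2 : (q - 2) * (1 + α) ≤ 4 := by nlinarith
    nlinarith

lemma tsum_fin (e : ℝ) (he : e < 0) :
    (∑' j : ℕ, ENNReal.ofReal (((2 : ℝ) ^ j) ^ e)) ≠ ⊤ := by
  have h1 : ∀ j : ℕ, ENNReal.ofReal (((2 : ℝ) ^ j) ^ e) = (ENNReal.ofReal ((2 : ℝ) ^ e)) ^ j := by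
    intro j
    rw [← ENNReal.ofReal_pow (by positivity), ← Real.rpow_natCast, ← Real.rpow_natCast,
      ← Real.rpow_mul (by norm_num), ← Real.rpow_mul (by norm_num), mul_comm]
  simp only [h1]
  rw [ENNReal.tsum_geometric]
  have h2 : ENNReal.ofReal ((2 : ℝ) ^ e) < 1 := by
    rw [ENNReal.ofReal_lt_one]
    exact Real.rpow_lt_one_of_one_lt_of_neg (by norm_num) he
  rw [ENNReal.inv_ne_top]
  exact (tsub_pos_of_lt h2).ne'

lemma Iβ_ne (β : ℝ) (hβ1 : β < 1) : Iβ β ≠ ⊤ := (rpow_int β hβ1).ne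

/-- total estimate with an unspecified constant -/
theorem total' (α q A L : ℝ) (hA : 0 ≤ A) (hα0 : 0 < α) (hα1 : α ≤ 1) (hq : 2 + 2 / (1 + α) < q)
    (hq4 : q < 4) (hL : 1 ≤ L) :
    ∃ K : ℝ≥0∞, K ≠ ⊤ ∧ ∀ μ : Measure ℝ,
      (∀ a r : ℝ, 0 < r → μ (Icc a (a + r)) ≤ ENNReal.ofReal (A * r ^ α)) →
      ∀ (M : ℝ) (f : ℝ × ℝ → ℂ), BS2 M f →
      ∫⁻ t, HH (μ.restrict (Icc 1 L)) (fun l => (l ^ 2)⁻¹) f q t ≤
        K * (N1 f ^ (q - 2) * N2 f + N2 f ^ ((4 - q) / 2) * N4 f ^ ((q - 2) / 2)) := by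
  obtain ⟨α', β, h1, h2, h3, h4, h5, h6⟩ := consts α q hα0 hα1 hq hq4
  have hq2 : 2 < q := by
    have : 0 < 2 / (1 + α) := by positivity
    linarith
  set m : ℝ≥0∞ := ENNReal.ofReal (A * L ^ α) with hm
  set K1 : ℝ≥0∞ := ENNReal.ofReal (2 * Real.pi) ^ 2 * m * 2 with hK1
  set K2 : ℝ≥0∞ := (∑' j : ℕ, ENNReal.ofReal (((2 : ℝ) ^ j) ^
      ((4 - q) / 2 + (1 - α' - β) * ((q - 2) / 2)))) *
      ((ENNReal.ofReal (2 * Real.pi) ^ 2 * m * ENNReal.ofReal 4) ^ ((4 - q) / 2) *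
      ((c4 * Iβ α' * (ENNReal.ofReal (A * L ^ 5))) * (c4 * Iβ β * ENNReal.ofReal 4)) ^
        ((q - 2) / 2)) with hK2
  have hK1t : K1 ≠ ⊤ := by
    rw [hK1, hm]
    exact ENNReal.mul_ne_top (ENNReal.mul_ne_top (ENNReal.pow_ne_top ENNReal.ofReal_ne_top)
      ENNReal.ofReal_ne_top) (by simp)
  have hK2t : K2 ≠ ⊤ := by
    rw [hK2, hm]
    refine ENNReal.mul_ne_top (tsum_fin _ h6) (ENNReal.mul_ne_top ?_ ?_)
    · apply ENNReal.rpow_ne_top_of_nonneg (by linarith)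
      exact ENNReal.mul_ne_top (ENNReal.mul_ne_top (ENNReal.pow_ne_top ENNReal.ofReal_ne_top)
        ENNReal.ofReal_ne_top) ENNReal.ofReal_ne_top
    · apply ENNReal.rpow_ne_top_of_nonneg (by linarith)
      exact ENNReal.mul_ne_top
        (ENNReal.mul_ne_top (ENNReal.mul_ne_top c4_ne (Iβ_ne _ h3)) ENNReal.ofReal_ne_top)
        (ENNReal.mul_ne_top (ENNReal.mul_ne_top c4_ne (Iβ_ne _ h5)) ENNReal.ofReal_ne_top)
  refine ⟨K1 + K2, ENNReal.add_ne_top.2 ⟨hK1t, hK2t⟩, ?_⟩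
  intro μ hμ M f hf
  have hμm : (μ.restrict (Icc 1 L)) univ ≤ m := by
    rw [Measure.restrict_apply_univ]
    refine (measure_mono ?_).trans (hμ 1 L (by linarith))
    exact Icc_subset_Icc le_rfl (by linarith)
  have hfin : IsFiniteMeasure (μ.restrict (Icc 1 L)) :=
    ⟨lt_of_le_of_lt hμm ENNReal.ofReal_lt_top⟩
  have h7 := total (μ.restrict (Icc 1 L)) (fun l => (l ^ 2)⁻¹) (measurable_id.pow_const 2).inv
    h1 h4 h5 (ENNReal.ofReal (A * L ^ 5)) (frost μ A α α' L hA h1 h2 hα1 hL hμ) hf q hq2 hq4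
  refine h7.trans ?_
  rw [mul_add]
  refine add_le_add ?_ ?_
  · refine mul_le_mul' ?_ le_rfl
    calc _ ≤ K1 := by
          rw [hK1]
          gcongr
      _ ≤ _ := le_self_add
  · refine mul_le_mul' ?_ le_rfl
    calc _ ≤ K2 := by
          rw [hK2]
          gcongr
      _ ≤ _ := le_add_self

end Pool.Agent.H147R3.PE
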