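import Mathlib
import Pool.Agent.H147R3.PE.Seven
set_option autoImplicit false

/-! The extension operator of the paraboloid applied to anisotropic dilates. -/

namespace Pool.Agent.H147R3.PE

open MeasureTheory Set Complex
open scoped ENNReal FourierTransform ComplexConjugate Convolution

/-- The Fourier extension operator of the paraboloid. -/
noncomputable def ext (f : ℝ × ℝ → ℂ) (ξ : ℝ × ℝ × ℝ) : ℂ :=
  ∫ x : ℝ × ℝ, cexp (-I * (x.1 * ξ.1 + x.2 * ξ.2.1 + (x.1 ^ 2 + x.2 ^ 2) * ξ.2.2)) * f x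

/-- The dilate of `f` by the factor `l` in the second variable. -/
def dil (l : ℝ) (f : ℝ × ℝ → ℂ) : ℝ × ℝ → ℂ := fun x => f (x.1, l * x.2)

lemma BS2.int {M : ℝ} {f : ℝ × ℝ → ℂ} (hf : BS2 M f) : Integrable f := by
  have h1 : f = (Icc (-1 : ℝ) 1 ×ˢ Icc (-1 : ℝ) 1).indicator f := by
    ext z
    by_cases hz : z ∈ Icc (-1 : ℝ) 1 ×ˢ Icc (-1 : ℝ) 1
    · rw [indicator_of_mem hz]
    · rw [indicator_of_notMem hz]
      rw [mem_prod, not_and_or] at hz
      rcases hz with h | h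
      · apply hf.supp1
        rw [← not_le, abs_le]
        exact h
      · apply hf.supp2
        rw [← not_le, abs_le]
        exact h
  rw [h1, integrable_indicator_iff (measurableSet_Icc.prod measurableSet_Icc)]
  have hfin : volume (Icc (-1 : ℝ) 1 ×ˢ Icc (-1 : ℝ) 1) < ⊤ := by
    rw [Measure.volume_eq_prod, Measure.prod_prod]
    exact ENNReal.mul_lt_top measure_Icc_lt_top measure_Icc_lt_top
  exact Measure.integrableOn_of_bounded (M := M) hfin.ne hf.meas.aestronglyMeasurable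
    (ae_of_all _ hf.bd)

lemma BS2.dil {M : ℝ} {f : ℝ × ℝ → ℂ} (hf : BS2 M f) {l : ℝ} (hl : 1 ≤ l) : BS2 M (dil l f) := by
  refine ⟨?_, fun x => hf.bd _, fun x hx => hf.supp1 _ hx, fun x hx => hf.supp2 _ ?_⟩
  · unfold PE.dil
    exact hf.meas.comp (by fun_prop)
  · simp only
    rw [abs_mul, abs_of_pos (by linarith)]
    nlinarith

lemma ext_dil {M : ℝ} {f : ℝ × ℝ → ℂ} (hf : BS2 M f) {l : ℝ} (hl : 1 ≤ l) (a b t : ℝ) :
    ext (dil l f) (a, b, t) = (l : ℂ)⁻¹ * FF f t (t * (l ^ 2)⁻¹) a (l⁻¹ * b) := by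
  have hl0 : 0 < l := by linarith
  have hint : Integrable (fun x : ℝ × ℝ =>
      cexp (-I * (x.1 * a + x.2 * b + (x.1 ^ 2 + x.2 ^ 2) * t)) * dil l f x) := by
    refine (hf.dil hl).int.mono ?_ (ae_of_all _ fun x => ?_)
    · apply Measurable.aestronglyMeasurable
      exact (by fun_prop : Measurable fun x : ℝ × ℝ =>
        cexp (-I * (x.1 * a + x.2 * b + (x.1 ^ 2 + x.2 ^ 2) * t))).mul (hf.dil hl).meas
    · rw [norm_mul]
      have : ‖cexp (-I * (x.1 * a + x.2 * b + (x.1 ^ 2 + x.2 ^ 2) * t))‖ = 1 := by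
        have e : -I * (x.1 * a + x.2 * b + (x.1 ^ 2 + x.2 ^ 2) * t : ℂ) =
            ((-(x.1 * a + x.2 * b + (x.1 ^ 2 + x.2 ^ 2) * t) : ℝ) : ℂ) * I := by
          push_cast
          ring
        rw [e, Complex.norm_exp_ofReal_mul_I]
      rw [this, one_mul]
  unfold ext
  rw [Measure.volume_eq_prod] at hint ⊢
  rw [integral_prod_symm _ hint]
  set G : ℝ → ℂ := fun w => cexp (((-(w * (l⁻¹ * b)) : ℝ) : ℂ) * I) *
    ch (t * (l ^ 2)⁻¹) (gg f t a) w with hG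
  have h1 : ∀ z : ℝ, (∫ y : ℝ, cexp (-I * ((y : ℂ) * a + z * b + ((y : ℂ) ^ 2 + z ^ 2) * t)) *
      dil l f (y, z)) = G (l * z) := by
    intro z
    rw [hG]
    simp only [ch, gg, FT]
    rw [← integral_const_mul, ← integral_const_mul]
    apply integral_congr_ae
    refine ae_of_all _ fun y => ?_
    simp only [dil]
    rw [← mul_assoc, ← mul_assoc, ← mul_assoc, ← Complex.exp_add, ← Complex.exp_add,
      ← Complex.exp_add]
    congr 2
    have : (l : ℂ) ≠ 0 := by exact_mod_cast hl0.ne'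
    push_cast
    field_simp
    ring
  simp only [h1]
  rw [Measure.integral_comp_mul_left G l, abs_of_pos (by positivity)]
  rw [hG]
  unfold FF FT
  simp

lemma ext_meas {f : ℝ × ℝ → ℂ} (hf : Measurable f) :
    Measurable fun p : ℝ × ℝ × ℝ × ℝ => ext (dil p.1 f) p.2 := by
  unfold ext dil
  have h1 : StronglyMeasurable (fun p : (ℝ × ℝ × ℝ × ℝ) × (ℝ × ℝ) =>
      cexp (-I * (p.2.1 * p.1.2.1 + p.2.2 * p.1.2.2.1 +
        (p.2.1 ^ 2 + p.2.2 ^ 2) * p.1.2.2.2)) * f (p.2.1, p.1.1 * p.2.2)) := by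
    apply Measurable.stronglyMeasurable
    exact (by fun_prop : Measurable fun p : (ℝ × ℝ × ℝ × ℝ) × (ℝ × ℝ) =>
        cexp (-I * (p.2.1 * p.1.2.1 + p.2.2 * p.1.2.2.1 +
        (p.2.1 ^ 2 + p.2.2 ^ 2) * p.1.2.2.2))).mul (hf.comp (by fun_prop))
  exact (h1.integral_prod_right' (ν := volume)).measurable

lemma lint_scale (g : ℝ → ℝ≥0∞) (hg : Measurable g) (c : ℝ) (hc : 0 < c) :
    ∫⁻ x, g (c * x) = ENNReal.ofReal c⁻¹ * ∫⁻ x, g x := by
  have h1 := Real.map_volume_mul_left hc.ne'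
  have h2 : ∫⁻ x, g x ∂(Measure.map (fun x => c * x) volume) = ∫⁻ x, g (c * x) :=
    lintegral_map hg (measurable_const_mul c)
  rw [← h2, h1, lintegral_smul_measure, abs_of_pos (by positivity), smul_eq_mul]

/-- the `q`-th moment of the extension of one dilate -/
lemma ext_le1 {M : ℝ} {f : ℝ × ℝ → ℂ} (hf : BS2 M f) (q : ℝ) (hq : 1 ≤ q) (l : ℝ) (hl1 : 1 ≤ l) :
    (∫⁻ ξ : ℝ × ℝ × ℝ, ‖ext (dil l f) ξ‖ₑ ^ q) ≤
      ∫⁻ a, ∫⁻ t, ∫⁻ η, ‖FF f t (t * (l ^ 2)⁻¹) a η‖ₑ ^ q := by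
  have hl0 : 0 < l := by linarith
  have hm : Measurable fun ξ : ℝ × ℝ × ℝ => ‖ext (dil l f) ξ‖ₑ ^ q := by
    have := (ext_meas hf.meas).comp (measurable_const (a := l) |>.prodMk
      (measurable_id (α := ℝ × ℝ × ℝ)))
    exact (this.enorm.pow_const q)
  have hm2 : ∀ a : ℝ, Measurable fun ξ : ℝ × ℝ => ‖ext (dil l f) (a, ξ)‖ₑ ^ q := by
    intro a
    exact hm.comp (measurable_const (a := a) |>.prodMk (measurable_id (α := ℝ × ℝ)))
  rw [Measure.volume_eq_prod, lintegral_prod _ hm.aemeasurable]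
  apply lintegral_mono
  intro a
  simp only
  rw [Measure.volume_eq_prod, lintegral_prod_symm _ (hm2 a).aemeasurable]
  apply lintegral_mono
  intro t
  simp only
  have e1 : ∀ b : ℝ, ‖ext (dil l f) (a, b, t)‖ₑ ^ q =
      (ENNReal.ofReal l⁻¹) ^ q * ‖FF f t (t * (l ^ 2)⁻¹) a (l⁻¹ * b)‖ₑ ^ q := by
    intro b
    rw [ext_dil hf hl1, enorm_mul, ENNReal.mul_rpow_of_nonneg _ _ (by linarith)]
    congr 2
    rw [← ofReal_norm, norm_inv, Complex.norm_real, Real.norm_of_nonneg hl0.le]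
  have hm3 : Measurable fun b : ℝ => ‖FF f t (t * (l ^ 2)⁻¹) a b‖ₑ ^ q :=
    (FF_jm hf.meas measurable_const measurable_const measurable_const
      measurable_id).enorm.pow_const q
  have hm4 : Measurable fun b : ℝ => ‖FF f t (t * (l ^ 2)⁻¹) a (l⁻¹ * b)‖ₑ ^ q :=
    hm3.comp (measurable_const_mul _)
  simp only [e1]
  rw [lintegral_const_mul _ hm4,
    lint_scale (fun b => ‖FF f t (t * (l ^ 2)⁻¹) a b‖ₑ ^ q) hm3 _ (by positivity), ← mul_assoc]
  refine mul_le_of_le_one_left (zero_le) ?_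
  rw [inv_inv, ENNReal.ofReal_rpow_of_pos (by positivity), ← ENNReal.ofReal_mul (by positivity),
    ENNReal.ofReal_le_one, Real.inv_rpow hl0.le]
  rw [inv_mul_le_iff₀ (by positivity), mul_one]
  calc l = l ^ (1 : ℝ) := (Real.rpow_one l).symm
    _ ≤ l ^ q := Real.rpow_le_rpow_of_exponent_le hl1 hq

/-- reordering of the integrals -/
lemma reorder (μ : Measure ℝ) [SFinite μ] (u : ℝ → ℝ → ℝ → ℝ≥0∞)
    (hu : Measurable fun p : ℝ × ℝ × ℝ => u p.1 p.2.1 p.2.2) :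
    ∫⁻ l, (∫⁻ a, ∫⁻ t, u l a t) ∂μ = ∫⁻ t, ∫⁻ a, (∫⁻ l, u l a t ∂μ) := by
  have h1 : ∀ l, ∫⁻ a, ∫⁻ t, u l a t = ∫⁻ t, ∫⁻ a, u l a t := by
    intro l
    have hc : Measurable fun p : ℝ × ℝ => ((l, p.1, p.2) : ℝ × ℝ × ℝ) := by fun_prop
    exact lintegral_lintegral_swap (f := fun a t => u l a t) (hu.comp hc).aemeasurable
  rw [lintegral_congr h1]
  have hc : Measurable fun p : (ℝ × ℝ) × ℝ => ((p.1.1, p.2, p.1.2) : ℝ × ℝ × ℝ) := by
    fun_prop
  have hmK2 : Measurable fun p : ℝ × ℝ => ∫⁻ a, u p.1 a p.2 :=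
    (hu.comp hc).lintegral_prod_right'
  rw [lintegral_lintegral_swap (f := fun l t => ∫⁻ a, u l a t) hmK2.aemeasurable]
  apply lintegral_congr
  intro t
  have hc : Measurable fun p : ℝ × ℝ => ((p.1, p.2, t) : ℝ × ℝ × ℝ) := by fun_prop
  exact lintegral_lintegral_swap (f := fun l a => u l a t) (hu.comp hc).aemeasurable

/-- the `q`-th moment of the extensions of the dilates -/
theorem ext_le {M : ℝ} {f : ℝ × ℝ → ℂ} (hf : BS2 M f) (μ : Measure ℝ) (L : ℝ)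
    [SFinite (μ.restrict (Icc 1 L))] (q : ℝ) (hq : 1 ≤ q) :
    ∫⁻ l in Icc 1 L, (∫⁻ ξ : ℝ × ℝ × ℝ, ‖ext (dil l f) ξ‖ₑ ^ q) ∂μ ≤
      ∫⁻ t, HH (μ.restrict (Icc 1 L)) (fun l => (l ^ 2)⁻¹) f q t := by
  have hmJ : Measurable fun p : (ℝ × ℝ × ℝ) × ℝ =>
      ‖FF f p.1.2.2 (p.1.2.2 * (p.1.1 ^ 2)⁻¹) p.1.2.1 p.2‖ₑ ^ q := by
    apply Measurable.pow_const
    apply Measurable.enorm
    apply FF_jm hf.meas
    · exact measurable_snd.comp (measurable_snd.comp measurable_fst)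
    · exact (measurable_snd.comp (measurable_snd.comp measurable_fst)).mul
        ((measurable_fst.comp measurable_fst).pow_const 2).inv
    · exact measurable_fst.comp (measurable_snd.comp measurable_fst)
    · exact measurable_snd
  -- the inner integral as a function of `(l, a, t)`
  set u : ℝ → ℝ → ℝ → ℝ≥0∞ := fun l a t => ∫⁻ η, ‖FF f t (t * (l ^ 2)⁻¹) a η‖ₑ ^ q with hu
  have hmI : Measurable fun p : ℝ × ℝ × ℝ => u p.1 p.2.1 p.2.2 := hmJ.lintegral_prod_right'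
  have h2 := reorder (μ.restrict (Icc 1 L)) u hmI
  refine (setLIntegral_mono' measurableSet_Icc fun l hl => ext_le1 hf q hq l hl.1).trans ?_
  exact h2.le

end Pool.Agent.H147R3.PE
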