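import Mathlib
import Pool.Agent.H147R3.PE.Eight
set_option autoImplicit false

/-! Decomposition into levels and the final estimate. -/

namespace Pool.Agent.H147R3.PE

open MeasureTheory Set Complex
open scoped ENNReal FourierTransform ComplexConjugate Convolution

/-- Frostman condition -/
def Fro (μ : Measure ℝ) (A α : ℝ) : Prop :=
  ∀ a r : ℝ, 0 < r → μ (Icc a (a + r)) ≤ ENNReal.ofReal (A * r ^ α)

lemma nest_le (f : ℝ × ℝ → ℝ≥0∞) (hf : Measurable f) (E : Set (ℝ × ℝ)) (hE : MeasurableSet E)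
    (c : ℝ≥0∞) (h : ∀ x, f x ≤ E.indicator (fun _ => c) x) :
    ∫⁻ z, ∫⁻ y, f (y, z) ≤ c * volume E := by
  rw [← lintegral_prod_symm f (μ := volume) (ν := volume) hf.aemeasurable, ← Measure.volume_eq_prod]
  calc ∫⁻ x, f x ≤ ∫⁻ x, E.indicator (fun _ => c) x := lintegral_mono h
    _ = _ := by rw [lintegral_indicator hE, lintegral_const, Measure.restrict_apply_univ]

lemma N_bounds {M : ℝ} {f : ℝ × ℝ → ℂ} (hf : BS2 M f) (E : Set (ℝ × ℝ)) (hE : MeasurableSet E)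
    (hfE : ∀ x, x ∉ E → f x = 0) :
    N1 f ≤ ENNReal.ofReal M * volume E ∧ N2 f ≤ ENNReal.ofReal M ^ 2 * volume E ∧
      N4 f ≤ ENNReal.ofReal M ^ 4 * volume E := by
  have hb : ∀ x, ‖f x‖ₑ ≤ ENNReal.ofReal M := fun x => by
    rw [← ofReal_norm]
    exact ENNReal.ofReal_le_ofReal (hf.bd x)
  refine ⟨?_, ?_, ?_⟩
  · apply nest_le (fun x => ‖f x‖ₑ) hf.meas.enorm E hE
    intro x
    by_cases hx : x ∈ E
    · rw [indicator_of_mem hx]
      exact hb x
    · rw [indicator_of_notMem hx, hfE x hx]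
      simp
  · apply nest_le (fun x => ‖f x‖ₑ ^ 2) (hf.meas.enorm.pow_const 2) E hE
    intro x
    by_cases hx : x ∈ E
    · rw [indicator_of_mem hx]
      exact pow_le_pow_left' (hb x) 2
    · rw [indicator_of_notMem hx, hfE x hx]
      simp
  · apply nest_le (fun x => ‖f x‖ₑ ^ 4) (hf.meas.enorm.pow_const 4) E hE
    intro x
    by_cases hx : x ∈ E
    · rw [indicator_of_mem hx]
      exact pow_le_pow_left' (hb x) 4
    · rw [indicator_of_notMem hx, hfE x hx]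
      simp

/-- estimate of one level -/
theorem level (α q₁ q A L : ℝ) (hA : 0 ≤ A) (hα0 : 0 < α) (hα1 : α ≤ 1)
    (hq₁ : 2 + 2 / (1 + α) < q₁) (hq4 : q₁ < 4) (hq : q₁ < q) (hL : 1 ≤ L) :
    ∃ K : ℝ≥0∞, K ≠ ⊤ ∧ ∀ μ : Measure ℝ, Fro μ A α →
      ∀ (M : ℝ) (f : ℝ × ℝ → ℂ), BS2 M f → ∀ E : Set (ℝ × ℝ), MeasurableSet E →
      (∀ x, x ∉ E → f x = 0) → volume E ≤ 4 →
      ∫⁻ l in Icc 1 L, (∫⁻ ξ : ℝ × ℝ × ℝ, ‖ext (dil l f) ξ‖ₑ ^ q) ∂μ ≤
        K * ENNReal.ofReal M ^ q * volume E ^ (1 + (q - q₁)) := by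
  obtain ⟨K, hK, hKK⟩ := total' α q₁ A L hA hα0 hα1 hq₁ hq4 hL
  have hq2 : 2 < q₁ := by
    have : 0 < 2 / (1 + α) := by positivity
    linarith
  refine ⟨K * (4 ^ (q₁ - 2) + 1), ENNReal.mul_ne_top hK ?_, ?_⟩
  · exact ENNReal.add_ne_top.2 ⟨ENNReal.rpow_ne_top_of_nonneg (by linarith) (by simp), by simp⟩
  intro μ hμ M f hf E hE hfE hvE
  have hfin : IsFiniteMeasure (μ.restrict (Icc 1 L)) := by
    refine ⟨lt_of_le_of_lt ?_ (ENNReal.ofReal_lt_top (r := A * L ^ α))⟩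
    rw [Measure.restrict_apply_univ]
    refine (measure_mono ?_).trans (hμ 1 L (by linarith))
    exact Icc_subset_Icc le_rfl (by linarith)
  obtain ⟨hN1, hN2, hN4⟩ := N_bounds hf E hE hfE
  set m := ENNReal.ofReal M with hm
  set v := volume E with hv
  have hvt : v ≠ ⊤ := ne_top_of_le_ne_top (by simp) hvE
  refine (ext_le hf μ L q (by linarith)).trans ?_
  have h1 : ∀ t, HH (μ.restrict (Icc 1 L)) (fun l => (l ^ 2)⁻¹) f q t ≤
      (m * v) ^ (q - q₁) * HH (μ.restrict (Icc 1 L)) (fun l => (l ^ 2)⁻¹) f q₁ t := by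
    intro t
    unfold HH
    have hfin2 : (m * v) ^ (q - q₁) ≠ ⊤ := by
      apply ENNReal.rpow_ne_top_of_nonneg (by linarith)
      exact ENNReal.mul_ne_top ENNReal.ofReal_ne_top hvt
    simp only [← lintegral_const_mul' _ _ hfin2]
    apply lintegral_mono
    intro ξ
    apply lintegral_mono
    intro l
    apply lintegral_mono
    intro η
    simp only
    have e1 : ‖FF f t (t * (l ^ 2)⁻¹) ξ η‖ₑ ^ q =
        ‖FF f t (t * (l ^ 2)⁻¹) ξ η‖ₑ ^ (q - q₁) * ‖FF f t (t * (l ^ 2)⁻¹) ξ η‖ₑ ^ q₁ := by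
      rw [← ENNReal.rpow_add_of_nonneg _ _ (by linarith) (by linarith)]
      congr 1
      ring
    rw [e1]
    exact mul_le_mul' (ENNReal.rpow_le_rpow ((FF_le f _ _ _ _).trans hN1) (by linarith)) le_rfl
  have hHm : ∫⁻ t, HH (μ.restrict (Icc 1 L)) (fun l => (l ^ 2)⁻¹) f q t ≤
      (m * v) ^ (q - q₁) *
        ∫⁻ t, HH (μ.restrict (Icc 1 L)) (fun l => (l ^ 2)⁻¹) f q₁ t := by
    rw [← lintegral_const_mul' _ _ (ENNReal.rpow_ne_top_of_nonneg (by linarith)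
      (ENNReal.mul_ne_top ENNReal.ofReal_ne_top hvt))]
    exact lintegral_mono h1
  refine hHm.trans ?_
  have h2 := hKK μ hμ M f hf
  have h3 : N1 f ^ (q₁ - 2) * N2 f ≤ 4 ^ (q₁ - 2) * (m ^ q₁ * v) := by
    calc N1 f ^ (q₁ - 2) * N2 f ≤ (m * v) ^ (q₁ - 2) * (m ^ 2 * v) :=
          mul_le_mul' (ENNReal.rpow_le_rpow hN1 (by linarith)) hN2
      _ = v ^ (q₁ - 2) * ((m ^ (q₁ - 2) * m ^ (2 : ℝ)) * v) := by
          rw [ENNReal.mul_rpow_of_nonneg _ _ (by linarith), ENNReal.rpow_ofNat]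
          ring
      _ = v ^ (q₁ - 2) * (m ^ q₁ * v) := by
          rw [← ENNReal.rpow_add_of_nonneg _ _ (by linarith) (by norm_num)]
          congr 4
          ring
      _ ≤ _ := mul_le_mul' (ENNReal.rpow_le_rpow hvE (by linarith)) le_rfl
  have h4 : N2 f ^ ((4 - q₁) / 2) * N4 f ^ ((q₁ - 2) / 2) ≤ m ^ q₁ * v := by
    calc N2 f ^ ((4 - q₁) / 2) * N4 f ^ ((q₁ - 2) / 2) ≤
          (m ^ 2 * v) ^ ((4 - q₁) / 2) * (m ^ 4 * v) ^ ((q₁ - 2) / 2) :=
          mul_le_mul' (ENNReal.rpow_le_rpow hN2 (by linarith))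
            (ENNReal.rpow_le_rpow hN4 (by linarith))
      _ = (m ^ (4 - q₁) * m ^ (2 * (q₁ - 2))) * (v ^ ((4 - q₁) / 2) * v ^ ((q₁ - 2) / 2)) := by
          rw [ENNReal.mul_rpow_of_nonneg _ _ (by linarith),
            ENNReal.mul_rpow_of_nonneg _ _ (by linarith), ← ENNReal.rpow_natCast m 2,
            ← ENNReal.rpow_natCast m 4, ← ENNReal.rpow_mul, ← ENNReal.rpow_mul]
          have e1 : ((2 : ℕ) : ℝ) * ((4 - q₁) / 2) = 4 - q₁ := by push_cast; ring
          have e2 : ((4 : ℕ) : ℝ) * ((q₁ - 2) / 2) = 2 * (q₁ - 2) := by push_cast; ring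
          rw [e1, e2]
          ring
      _ = _ := by
          rw [← ENNReal.rpow_add_of_nonneg _ _ (by linarith) (by linarith),
            ← ENNReal.rpow_add_of_nonneg _ _ (by linarith) (by linarith)]
          have e1 : 4 - q₁ + 2 * (q₁ - 2) = q₁ := by ring
          have e2 : (4 - q₁) / 2 + (q₁ - 2) / 2 = 1 := by ring
          rw [e1, e2, ENNReal.rpow_one]
  calc (m * v) ^ (q - q₁) * ∫⁻ t, HH (μ.restrict (Icc 1 L)) (fun l => (l ^ 2)⁻¹) f q₁ t
      ≤ (m * v) ^ (q - q₁) * (K * (4 ^ (q₁ - 2) * (m ^ q₁ * v) + m ^ q₁ * v)) := by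
        refine mul_le_mul' le_rfl (h2.trans (mul_le_mul' le_rfl (add_le_add h3 h4)))
    _ = K * (4 ^ (q₁ - 2) + 1) * (m ^ (q - q₁) * m ^ q₁) * (v ^ (1 : ℝ) * v ^ (q - q₁)) := by
        rw [ENNReal.mul_rpow_of_nonneg _ _ (by linarith), ENNReal.rpow_one]
        ring
    _ = _ := by
        rw [← ENNReal.rpow_add_of_nonneg _ _ (by linarith) (by linarith),
          ← ENNReal.rpow_add_of_nonneg _ _ (by linarith) (by linarith)]
        congr 3
        ring

/-- weighted Hölder inequality for series -/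
lemma wsum (a : ℕ → ℝ≥0∞) (ρ : ℝ) (hρ0 : 0 < ρ) (q : ℝ) (hq : 1 < q) :
    (∑' k, a k) ^ q ≤ (∑' k, ENNReal.ofReal (ρ ^ k)) ^ (q - 1) *
      ∑' k, ENNReal.ofReal ((ρ ^ k) ^ (-(q - 1))) * a k ^ q := by
  have hpq : (q / (q - 1)).HolderConjugate q := by
    rw [Real.holderConjugate_iff]
    constructor
    · rw [lt_div_iff₀ (by linarith)]
      linarith
    · rw [inv_div]
      have : q ≠ 0 := by linarith
      field_simp
      ring
  have h := ENNReal.lintegral_mul_le_Lp_mul_Lq (Measure.count : Measure ℕ) hpq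
    (f := fun k => ENNReal.ofReal ((ρ ^ k) ^ ((q - 1) / q)))
    (g := fun k => ENNReal.ofReal ((ρ ^ k) ^ (-((q - 1) / q))) * a k)
    (measurable_of_countable _).aemeasurable (measurable_of_countable _).aemeasurable
  simp only [lintegral_count] at h
  have e1 : ∀ k : ℕ, ((fun k : ℕ => ENNReal.ofReal ((ρ ^ k) ^ ((q - 1) / q))) *
      (fun k : ℕ => ENNReal.ofReal ((ρ ^ k) ^ (-((q - 1) / q))) * a k)) k = a k := by
    intro k
    simp only [Pi.mul_apply]
    rw [← mul_assoc, ← ENNReal.ofReal_mul (by positivity), ← Real.rpow_add (by positivity)]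
    simp
  have e2 : ∀ k : ℕ, ENNReal.ofReal ((ρ ^ k) ^ ((q - 1) / q)) ^ (q / (q - 1)) =
      ENNReal.ofReal (ρ ^ k) := by
    intro k
    rw [ENNReal.ofReal_rpow_of_pos (by positivity), ← Real.rpow_mul (by positivity)]
    have h1 : q ≠ 0 := by linarith
    have h2 : q - 1 ≠ 0 := by linarith
    have : (q - 1) / q * (q / (q - 1)) = 1 := by field_simp
    rw [this, Real.rpow_one]
  have e3 : ∀ k : ℕ, (ENNReal.ofReal ((ρ ^ k) ^ (-((q - 1) / q))) * a k) ^ q =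
      ENNReal.ofReal ((ρ ^ k) ^ (-(q - 1))) * a k ^ q := by
    intro k
    rw [ENNReal.mul_rpow_of_nonneg _ _ (by linarith), ENNReal.ofReal_rpow_of_pos (by positivity),
      ← Real.rpow_mul (by positivity)]
    have h1 : q ≠ 0 := by linarith
    have : -((q - 1) / q) * q = -(q - 1) := by field_simp
    rw [this]
  simp only [e1, e2, e3] at h
  have h2 := ENNReal.rpow_le_rpow h (show 0 ≤ q by linarith)
  refine h2.trans (le_of_eq ?_)
  rw [ENNReal.mul_rpow_of_nonneg _ _ (by linarith), ← ENNReal.rpow_mul, ← ENNReal.rpow_mul]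
  have h1 : q ≠ 0 := by linarith
  have h3 : q - 1 ≠ 0 := by linarith
  have e4 : 1 / (q / (q - 1)) * q = q - 1 := by field_simp
  have e5 : 1 / q * q = 1 := by field_simp
  rw [e4, e5, ENNReal.rpow_one]

end Pool.Agent.H147R3.PE
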