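import Mathlib
import Pool.Agent.H147R3.PE.Nine
set_option autoImplicit false

/-! The weighted fourth power estimate. -/

namespace Pool.Agent.H147R3.PE

open MeasureTheory Set Complex
open scoped ENNReal FourierTransform ComplexConjugate Convolution

/-- the weight `(1 + |t|)^γ` -/
noncomputable def wt (γ t : ℝ) : ℝ≥0∞ := ENNReal.ofReal ((1 + |t|) ^ γ)

lemma wt_meas (γ : ℝ) : Measurable (wt γ) := by
  unfold wt
  exact ((measurable_norm.const_add 1).pow_const γ).ennreal_ofReal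

lemma wt_pos (γ t : ℝ) : wt γ t ≠ 0 := by
  unfold wt
  rw [Ne, ENNReal.ofReal_eq_zero, not_le]
  positivity

lemma wt_top (γ t : ℝ) : wt γ t ≠ ⊤ := ENNReal.ofReal_ne_top

theorem block4 {Λ : Type*} [MeasurableSpace Λ] (μ : Measure Λ) [SFinite μ] (φ : Λ → ℝ)
    (hφ : Measurable φ) {α β : ℝ} (hα : 0 < α) (hβ0 : 0 < β) (hβ1 : β < 1) (A : ℝ≥0∞)
    (hB : HB μ φ α A) {M : ℝ} {f : ℝ × ℝ → ℂ} (hf : BS2 M f)
    (T : ℝ) (hT : 0 < T) :
    ∫⁻ t in SS T, HH μ φ f 4 t ≤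
      ((c4 * Iβ α * A) * (c4 * Iβ β * ENNReal.ofReal 4)) * ENNReal.ofReal (T ^ (1 - α - β)) *
        N4 f := by
  have hT' : ENNReal.ofReal (T ^ (1 - α - β)) =
      ENNReal.ofReal (T ^ (-α)) * ENNReal.ofReal (T ^ (1 - β)) := by
    rw [← ENNReal.ofReal_mul (by positivity), ← Real.rpow_add hT]
    congr 2
    ring
  have h5 := FF_four hf μ φ hφ (volume.restrict (SS T)) (β := α) (β' := β)
    (A * ENNReal.ofReal (T ^ (-α))) (ENNReal.ofReal (4 * T ^ (1 - β))) ?_ ?_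
  · have e0 : ∀ t, HH μ φ f 4 t = ∫⁻ ξ, ∫⁻ l, (∫⁻ η, ‖FF f t (t * φ l) ξ η‖ₑ ^ 4) ∂μ := by
      intro t
      unfold HH
      simp only [ENNReal.rpow_ofNat]
    rw [lintegral_congr e0]
    refine h5.trans (le_of_eq ?_)
    rw [hT', ENNReal.ofReal_mul (p := 4) (by norm_num)]
    unfold Iβ N4
    ring
  · rw [ae_restrict_iff' (SS_meas T)]
    refine ae_of_all _ fun t ht h hh σ => ?_
    have ht0 : 0 < |t| := hT.trans_le ht.1
    refine (hB t (abs_pos.1 ht0) h hh σ).trans ?_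
    gcongr ?_ * ?_ * ?_
    · exact le_refl _
    · apply ENNReal.ofReal_le_ofReal
      exact Real.rpow_le_rpow_of_nonpos hT ht.1 (by linarith)
    · exact le_refl _
  · intro h hh σ
    exact SS_nu hT hβ0 hβ1 h hh σ

theorem total4 {Λ : Type*} [MeasurableSpace Λ] (μ : Measure Λ) [IsFiniteMeasure μ] (φ : Λ → ℝ)
    (hφ : Measurable φ) {α β γ : ℝ} (hα : 0 < α) (hβ0 : 0 < β) (hβ1 : β < 1) (hγ : 0 ≤ γ)
    (A : ℝ≥0∞)
    (hB : HB μ φ α A) {M : ℝ} {f : ℝ × ℝ → ℂ} (hf : BS2 M f) :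
    ∫⁻ t, wt γ t * HH μ φ f 4 t ≤
      ENNReal.ofReal (3 ^ γ) *
      ((ENNReal.ofReal (2 * Real.pi) ^ 2 * μ univ * 2) * (N1 f ^ 2 * N2 f) +
      (∑' j : ℕ, ENNReal.ofReal (((2 : ℝ) ^ j) ^ (γ + (1 - α - β)))) *
        (((c4 * Iβ α * A) * (c4 * Iβ β * ENNReal.ofReal 4)) * N4 f)) := by
  have h1 : ∫⁻ t, wt γ t * HH μ φ f 4 t ≤ (∫⁻ t in Icc (-1 : ℝ) 1, wt γ t * HH μ φ f 4 t) +
      ∑' j : ℕ, ∫⁻ t in SS ((2 : ℝ) ^ j), wt γ t * HH μ φ f 4 t := by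
    rw [← setLIntegral_univ]
    refine (lintegral_mono_set cover).trans ((lintegral_union_le _ _ _).trans ?_)
    exact add_le_add le_rfl (lintegral_iUnion_le _ _)
  refine h1.trans ?_
  rw [mul_add]
  refine add_le_add ?_ ?_
  · calc ∫⁻ t in Icc (-1 : ℝ) 1, wt γ t * HH μ φ f 4 t
        ≤ ∫⁻ t in Icc (-1 : ℝ) 1, ENNReal.ofReal (3 ^ γ) * HH μ φ f 4 t := by
          apply setLIntegral_mono' measurableSet_Icc
          intro t ht
          refine mul_le_mul' ?_ le_rfl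
          apply ENNReal.ofReal_le_ofReal
          have : |t| ≤ 1 := abs_le.2 ht
          exact Real.rpow_le_rpow (by positivity) (by linarith) hγ
      _ = ENNReal.ofReal (3 ^ γ) * ∫⁻ t in Icc (-1 : ℝ) 1, HH μ φ f 4 t := by
          rw [lintegral_const_mul' _ _ ENNReal.ofReal_ne_top]
      _ ≤ _ := by
          refine mul_le_mul' le_rfl ?_
          have := small μ φ hf 4 (by norm_num)
          have e : (4 : ℝ) - 2 = 2 := by norm_num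
          rw [e, ENNReal.rpow_ofNat] at this
          exact this
  · rw [← ENNReal.tsum_mul_right, ← ENNReal.tsum_mul_left]
    apply ENNReal.tsum_le_tsum
    intro j
    have hj1 : (1 : ℝ) ≤ 2 ^ j := one_le_pow₀ (by norm_num)
    have hj0 : (0 : ℝ) < 2 ^ j := by positivity
    calc ∫⁻ t in SS ((2 : ℝ) ^ j), wt γ t * HH μ φ f 4 t
        ≤ ∫⁻ t in SS ((2 : ℝ) ^ j), ENNReal.ofReal (3 ^ γ * ((2 : ℝ) ^ j) ^ γ) *
            HH μ φ f 4 t := by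
          apply setLIntegral_mono' (SS_meas _)
          intro t ht
          refine mul_le_mul' ?_ le_rfl
          apply ENNReal.ofReal_le_ofReal
          rw [← Real.mul_rpow (by norm_num) hj0.le]
          have : |t| < 2 * 2 ^ j := ht.2
          exact Real.rpow_le_rpow (by positivity) (by linarith) hγ
      _ = ENNReal.ofReal (3 ^ γ * ((2 : ℝ) ^ j) ^ γ) * ∫⁻ t in SS ((2 : ℝ) ^ j), HH μ φ f 4 t := by
          rw [lintegral_const_mul' _ _ ENNReal.ofReal_ne_top]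
      _ ≤ ENNReal.ofReal (3 ^ γ * ((2 : ℝ) ^ j) ^ γ) *
          (((c4 * Iβ α * A) * (c4 * Iβ β * ENNReal.ofReal 4)) *
            ENNReal.ofReal (((2 : ℝ) ^ j) ^ (1 - α - β)) * N4 f) :=
          mul_le_mul' le_rfl (block4 μ φ hφ hα hβ0 hβ1 A hB hf _ hj0)
      _ = _ := by
          rw [Real.rpow_add hj0, ENNReal.ofReal_mul (by positivity),
            ENNReal.ofReal_mul (by positivity)]
          ring

lemma consts4 (α γ : ℝ) (hα1 : α ≤ 1) (hγ0 : 0 ≤ γ) (hγ : γ < α) :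
    ∃ α' β : ℝ, 0 < α' ∧ α' ≤ α ∧ α' < 1 ∧ 0 < β ∧ β < 1 ∧ γ + (1 - α' - β) < 0 := by
  refine ⟨α - (α - γ) / 4, 1 - (α - γ) / 4, ?_, ?_, ?_, ?_, ?_, ?_⟩ <;> linarith

lemma N_int {f : ℝ × ℝ → ℂ} (hf : Measurable f) :
    N1 f = ∫⁻ x, ‖f x‖ₑ ∧ N2 f = ∫⁻ x, ‖f x‖ₑ ^ 2 ∧ N4 f = ∫⁻ x, ‖f x‖ₑ ^ 4 := by
  refine ⟨?_, ?_, ?_⟩
  · unfold N1
    rw [Measure.volume_eq_prod, lintegral_prod_symm _ hf.enorm.aemeasurable]
  · unfold N2
    rw [Measure.volume_eq_prod, lintegral_prod_symm _ (hf.enorm.pow_const 2).aemeasurable]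
  · unfold N4
    rw [Measure.volume_eq_prod, lintegral_prod_symm _ (hf.enorm.pow_const 4).aemeasurable]

lemma N_cs {M : ℝ} {f : ℝ × ℝ → ℂ} (hf : BS2 M f) : N1 f ^ 2 * N2 f ≤ 16 * N4 f := by
  obtain ⟨h1, h2, h4⟩ := N_int hf.meas
  set Q : Set (ℝ × ℝ) := Icc (-1 : ℝ) 1 ×ˢ Icc (-1 : ℝ) 1 with hQ
  have hQm : MeasurableSet Q := measurableSet_Icc.prod measurableSet_Icc
  have hQv : volume Q = 4 := by
    rw [hQ, Measure.volume_eq_prod, Measure.prod_prod, Real.volume_Icc,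
      ← ENNReal.ofReal_mul (by norm_num)]
    norm_num
  have hz : ∀ x, x ∉ Q → f x = 0 := by
    intro x hx
    rw [hQ, mem_prod, not_and_or] at hx
    rcases hx with h | h
    · apply hf.supp1
      rw [← not_le, abs_le]
      exact h
    · apply hf.supp2
      rw [← not_le, abs_le]
      exact h
  have e1 : ∀ n : ℕ, n ≠ 0 → ∫⁻ x, ‖f x‖ₑ ^ n = ∫⁻ x in Q, ‖f x‖ₑ ^ n := by
    intro n hn
    rw [← lintegral_indicator hQm]
    apply lintegral_congr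
    intro x
    by_cases hx : x ∈ Q
    · rw [indicator_of_mem hx]
    · rw [indicator_of_notMem hx, hz x hx]
      simp [hn]
  have c1 := cs (volume.restrict Q) (fun x => ‖f x‖ₑ ^ 1) (hf.meas.enorm.pow_const 1)
  have c2 := cs (volume.restrict Q) (fun x => ‖f x‖ₑ ^ 2) (hf.meas.enorm.pow_const 2)
  rw [Measure.restrict_apply_univ, hQv] at c1 c2
  simp only [← pow_mul] at c1 c2
  rw [← e1 1 (by norm_num), ← e1 (1 * 2) (by norm_num)] at c1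
  rw [← e1 2 (by norm_num), ← e1 (2 * 2) (by norm_num)] at c2
  norm_num at c1 c2
  rw [← h1, ← h2] at c1
  rw [← h2, ← h4] at c2
  calc N1 f ^ 2 * N2 f ≤ 4 * N2 f * N2 f := mul_le_mul' c1 le_rfl
    _ = 4 * (N2 f ^ 2) := by ring
    _ ≤ 4 * (4 * N4 f) := mul_le_mul' le_rfl c2
    _ = _ := by rw [← mul_assoc]; norm_num

/-- the weighted estimate with an unspecified constant -/
theorem total4' (α γ A L : ℝ) (hA : 0 ≤ A) (hα1 : α ≤ 1) (hγ0 : 0 ≤ γ) (hγ : γ < α)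
    (hL : 1 ≤ L) :
    ∃ K : ℝ≥0∞, K ≠ ⊤ ∧ ∀ μ : Measure ℝ, Fro μ A α →
      ∀ (M : ℝ) (f : ℝ × ℝ → ℂ), BS2 M f →
      ∫⁻ t, wt γ t * HH (μ.restrict (Icc 1 L)) (fun l => (l ^ 2)⁻¹) f 4 t ≤ K * N4 f := by
  obtain ⟨α', β, h1, h2, h3, h4, h5, h6⟩ := consts4 α γ hα1 hγ0 hγ
  set m : ℝ≥0∞ := ENNReal.ofReal (A * L ^ α) with hm
  set K1 : ℝ≥0∞ := ENNReal.ofReal (2 * Real.pi) ^ 2 * m * 2 with hK1
  set K2 : ℝ≥0∞ := (∑' j : ℕ, ENNReal.ofReal (((2 : ℝ) ^ j) ^ (γ + (1 - α' - β)))) *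
      ((c4 * Iβ α' * (ENNReal.ofReal (A * L ^ 5))) * (c4 * Iβ β * ENNReal.ofReal 4)) with hK2
  have hK1t : K1 ≠ ⊤ := by
    rw [hK1, hm]
    exact ENNReal.mul_ne_top (ENNReal.mul_ne_top (ENNReal.pow_ne_top ENNReal.ofReal_ne_top)
      ENNReal.ofReal_ne_top) (by simp)
  have hK2t : K2 ≠ ⊤ := by
    rw [hK2]
    refine ENNReal.mul_ne_top (tsum_fin _ h6) ?_
    exact ENNReal.mul_ne_top
        (ENNReal.mul_ne_top (ENNReal.mul_ne_top c4_ne (Iβ_ne _ h3)) ENNReal.ofReal_ne_top)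
        (ENNReal.mul_ne_top (ENNReal.mul_ne_top c4_ne (Iβ_ne _ h5)) ENNReal.ofReal_ne_top)
  refine ⟨ENNReal.ofReal (3 ^ γ) * (K1 * 16 + K2), ENNReal.mul_ne_top ENNReal.ofReal_ne_top
    (ENNReal.add_ne_top.2 ⟨ENNReal.mul_ne_top hK1t (by simp), hK2t⟩), ?_⟩
  intro μ hμ M f hf
  have hμm : (μ.restrict (Icc 1 L)) univ ≤ m := by
    rw [Measure.restrict_apply_univ]
    refine (measure_mono ?_).trans (hμ 1 L (by linarith))
    exact Icc_subset_Icc le_rfl (by linarith)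
  have hfin : IsFiniteMeasure (μ.restrict (Icc 1 L)) :=
    ⟨lt_of_le_of_lt hμm ENNReal.ofReal_lt_top⟩
  have h7 := total4 (μ.restrict (Icc 1 L)) (fun l => (l ^ 2)⁻¹) (measurable_id.pow_const 2).inv
    h1 h4 h5 hγ0 (ENNReal.ofReal (A * L ^ 5)) (frost μ A α α' L hA h1 h2 hα1 hL hμ) hf
  refine h7.trans ?_
  rw [mul_assoc (ENNReal.ofReal (3 ^ γ)) (K1 * 16 + K2) (N4 f)]
  refine mul_le_mul' le_rfl ?_
  rw [add_mul]
  refine add_le_add ?_ ?_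
  · calc _ ≤ K1 * (16 * N4 f) := mul_le_mul' (by rw [hK1]; gcongr) (N_cs hf)
      _ = _ := by ring
  · rw [hK2]
    exact le_of_eq (by ring)

/-- the weighted `q`-th moment of the extension of one dilate -/
lemma ext_le1w {M : ℝ} {f : ℝ × ℝ → ℂ} (hf : BS2 M f) (w : ℝ → ℝ≥0∞) (hw : Measurable w)
    (q : ℝ) (hq : 1 ≤ q) (l : ℝ) (hl1 : 1 ≤ l) :
    (∫⁻ ξ : ℝ × ℝ × ℝ, w ξ.2.2 * ‖ext (dil l f) ξ‖ₑ ^ q) ≤
      ∫⁻ a, ∫⁻ t, w t * ∫⁻ η, ‖FF f t (t * (l ^ 2)⁻¹) a η‖ₑ ^ q := by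
  have hl0 : 0 < l := by linarith
  have hw3 : Measurable fun ξ : ℝ × ℝ × ℝ => w ξ.2.2 :=
    hw.comp (measurable_snd.comp measurable_snd)
  have hm : Measurable fun ξ : ℝ × ℝ × ℝ => ‖ext (dil l f) ξ‖ₑ ^ q := by
    have := (ext_meas hf.meas).comp (measurable_const (a := l) |>.prodMk
      (measurable_id (α := ℝ × ℝ × ℝ)))
    exact (this.enorm.pow_const q)
  have hm2 : ∀ a : ℝ, Measurable fun ξ : ℝ × ℝ => ‖ext (dil l f) (a, ξ)‖ₑ ^ q := by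
    intro a
    exact hm.comp (measurable_const (a := a) |>.prodMk (measurable_id (α := ℝ × ℝ)))
  have hw2 : Measurable fun ξ : ℝ × ℝ => w ξ.2 := hw.comp measurable_snd
  have hwm : Measurable fun ξ : ℝ × ℝ × ℝ => w ξ.2.2 * ‖ext (dil l f) ξ‖ₑ ^ q := hw3.mul hm
  have hwm2 : ∀ a : ℝ, Measurable fun ξ : ℝ × ℝ => w ξ.2 * ‖ext (dil l f) (a, ξ)‖ₑ ^ q :=
    fun a => hw2.mul (hm2 a)
  rw [Measure.volume_eq_prod, lintegral_prod _ hwm.aemeasurable]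
  apply lintegral_mono
  intro a
  simp only
  rw [Measure.volume_eq_prod, lintegral_prod_symm _ (hwm2 a).aemeasurable]
  apply lintegral_mono
  intro t
  simp only
  have e1 : ∀ b : ℝ, ‖ext (dil l f) (a, b, t)‖ₑ ^ q =
      (ENNReal.ofReal l⁻¹) ^ q * ‖FF f t (t * (l ^ 2)⁻¹) a (l⁻¹ * b)‖ₑ ^ q := by
    intro b
    rw [ext_dil hf hl1, enorm_mul, ENNReal.mul_rpow_of_nonneg _ _ (by linarith)]
    congr 2
    rw [← ofReal_norm, norm_inv, Complex.norm_real, Real.norm_of_nonneg hl0.le]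
  have hm3 : Measurable fun b : ℝ => ‖FF f t (t * (l ^ 2)⁻¹) a b‖ₑ ^ q :=
    (FF_jm hf.meas measurable_const measurable_const measurable_const
      measurable_id).enorm.pow_const q
  have hm4 : Measurable fun b : ℝ => ‖FF f t (t * (l ^ 2)⁻¹) a (l⁻¹ * b)‖ₑ ^ q :=
    hm3.comp (measurable_const_mul _)
  simp only [e1]
  rw [lintegral_const_mul _ (hm4.const_mul _), lintegral_const_mul _ hm4,
    lint_scale (fun b => ‖FF f t (t * (l ^ 2)⁻¹) a b‖ₑ ^ q) hm3 _ (by positivity)]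
  refine mul_le_mul' le_rfl ?_
  rw [← mul_assoc]
  refine mul_le_of_le_one_left (zero_le) ?_
  rw [inv_inv, ENNReal.ofReal_rpow_of_pos (by positivity), ← ENNReal.ofReal_mul (by positivity),
    ENNReal.ofReal_le_one, Real.inv_rpow hl0.le]
  rw [inv_mul_le_iff₀ (by positivity), mul_one]
  calc l = l ^ (1 : ℝ) := (Real.rpow_one l).symm
    _ ≤ l ^ q := Real.rpow_le_rpow_of_exponent_le hl1 hq

/-- the weighted fourth moment of the extensions of the dilates -/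
theorem ext_lew {M : ℝ} {f : ℝ × ℝ → ℂ} (hf : BS2 M f) (w : ℝ → ℝ≥0∞) (hw : Measurable w)
    (hwt : ∀ t, w t ≠ ⊤) (μ : Measure ℝ) (L : ℝ)
    [SFinite (μ.restrict (Icc 1 L))] (q : ℝ) (hq : 1 ≤ q) :
    ∫⁻ l in Icc 1 L, (∫⁻ ξ : ℝ × ℝ × ℝ, w ξ.2.2 * ‖ext (dil l f) ξ‖ₑ ^ q) ∂μ ≤
      ∫⁻ t, w t * HH (μ.restrict (Icc 1 L)) (fun l => (l ^ 2)⁻¹) f q t := by
  have hmJ : Measurable fun p : (ℝ × ℝ × ℝ) × ℝ =>
      ‖FF f p.1.2.2 (p.1.2.2 * (p.1.1 ^ 2)⁻¹) p.1.2.1 p.2‖ₑ ^ q := by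
    apply Measurable.pow_const
    apply Measurable.enorm
    apply FF_jm hf.meas
    · exact measurable_snd.comp (measurable_snd.comp measurable_fst)
    · exact (measurable_snd.comp (measurable_snd.comp measurable_fst)).mul
        ((measurable_fst.comp measurable_fst).pow_const 2).inv
    · exact measurable_fst.comp (measurable_snd.comp measurable_fst)
    · exact measurable_snd
  have hmJ' : Measurable fun p : ℝ × ℝ × ℝ =>
      ∫⁻ η, ‖FF f p.2.2 (p.2.2 * (p.1 ^ 2)⁻¹) p.2.1 η‖ₑ ^ q := hmJ.lintegral_prod_right'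
  -- the inner integral as a function of `(l, a, t)`
  set u : ℝ → ℝ → ℝ → ℝ≥0∞ := fun l a t => w t * ∫⁻ η, ‖FF f t (t * (l ^ 2)⁻¹) a η‖ₑ ^ q with hu
  have hmI : Measurable fun p : ℝ × ℝ × ℝ => u p.1 p.2.1 p.2.2 :=
    (hw.comp (measurable_snd.comp measurable_snd)).mul hmJ'
  have h2 := reorder (μ.restrict (Icc 1 L)) u hmI
  refine (setLIntegral_mono' measurableSet_Icc fun l hl => ext_le1w hf w hw q hq l hl.1).trans ?_
  refine h2.le.trans (le_of_eq ?_)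
  apply lintegral_congr
  intro t
  rw [hu]
  simp only [lintegral_const_mul' _ _ (hwt t)]
  rfl

/-- the weighted second moment of one dilate -/
lemma two_w {M : ℝ} {f : ℝ × ℝ → ℂ} (hf : BS2 M f) (w : ℝ → ℝ≥0∞) (hw : Measurable w)
    (l : ℝ) (hl1 : 1 ≤ l) :
    (∫⁻ ξ : ℝ × ℝ × ℝ, w ξ.2.2 * ‖ext (dil l f) ξ‖ₑ ^ (2 : ℝ)) ≤
      ENNReal.ofReal (2 * Real.pi) ^ 2 * (∫⁻ t, w t) * N2 f := by
  refine (ext_le1w hf w hw 2 (by norm_num) l hl1).trans ?_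
  have hmJ : Measurable fun p : (ℝ × ℝ) × ℝ =>
      ‖FF f p.1.2 (p.1.2 * (l ^ 2)⁻¹) p.1.1 p.2‖ₑ ^ (2 : ℝ) := by
    apply Measurable.pow_const
    apply Measurable.enorm
    apply FF_jm hf.meas
    · exact measurable_snd.comp measurable_fst
    · exact (measurable_snd.comp measurable_fst).mul_const _
    · exact measurable_fst.comp measurable_fst
    · exact measurable_snd
  have hmJ' : Measurable fun p : ℝ × ℝ =>
      ∫⁻ η, ‖FF f p.2 (p.2 * (l ^ 2)⁻¹) p.1 η‖ₑ ^ (2 : ℝ) := hmJ.lintegral_prod_right'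
  have hmK : Measurable fun p : ℝ × ℝ =>
      w p.2 * ∫⁻ η, ‖FF f p.2 (p.2 * (l ^ 2)⁻¹) p.1 η‖ₑ ^ (2 : ℝ) :=
    (hw.comp measurable_snd).mul hmJ'
  rw [lintegral_lintegral_swap (μ := (volume : Measure ℝ)) (ν := (volume : Measure ℝ))
    (f := fun a t => w t * ∫⁻ η, ‖FF f t (t * (l ^ 2)⁻¹) a η‖ₑ ^ (2 : ℝ)) hmK.aemeasurable]
  have e1 : ∀ t, ∫⁻ a, w t * ∫⁻ η, ‖FF f t (t * (l ^ 2)⁻¹) a η‖ₑ ^ (2 : ℝ) =
      w t * (ENNReal.ofReal (2 * Real.pi) ^ 2 * N2 f) := by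
    intro t
    have h0 : Measurable fun p : ℝ × ℝ => ‖FF f t (t * (l ^ 2)⁻¹) p.1 p.2‖ₑ ^ (2 : ℝ) :=
      (FF_jm hf.meas measurable_const measurable_const measurable_fst
        measurable_snd).enorm.pow_const _
    have hm1 : Measurable fun a : ℝ => ∫⁻ η, ‖FF f t (t * (l ^ 2)⁻¹) a η‖ₑ ^ (2 : ℝ) :=
      h0.lintegral_prod_right'
    rw [lintegral_const_mul _ hm1]
    congr 1
    have h5 := FF_two hf (Measure.dirac (0 : ℝ)) (fun _ => t * (l ^ 2)⁻¹) t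
    simp only [lintegral_dirac, measure_univ, mul_one] at h5
    simp only [ENNReal.rpow_ofNat]
    exact h5
  simp only [e1]
  rw [lintegral_mul_const _ hw]
  exact le_of_eq (by ring)

end Pool.Agent.H147R3.PE
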