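import Mathlib
import Pool.Agent.H147R3.PE.W1
set_option autoImplicit false

/-! Decomposition into levels and the final estimate. -/

namespace Pool.Agent.H147R3.PE

open MeasureTheory Set Complex
open scoped ENNReal FourierTransform ComplexConjugate Convolution

/-- measurable functions supported in `[-1,1]^2` -/
structure S2 (f : ℝ × ℝ → ℂ) : Prop where
  meas : Measurable f
  supp1 : ∀ x : ℝ × ℝ, 1 < |x.1| → f x = 0
  supp2 : ∀ x : ℝ × ℝ, 1 < |x.2| → f x = 0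

/-- the square -/
def QQ : Set (ℝ × ℝ) := Icc (-1 : ℝ) 1 ×ˢ Icc (-1 : ℝ) 1

lemma QQ_meas : MeasurableSet QQ := measurableSet_Icc.prod measurableSet_Icc

lemma QQ_vol : volume QQ = 4 := by
  unfold QQ
  rw [Measure.volume_eq_prod, Measure.prod_prod, Real.volume_Icc, ← ENNReal.ofReal_mul (by norm_num)]
  norm_num

lemma S2.zero {f : ℝ × ℝ → ℂ} (hf : S2 f) (x : ℝ × ℝ) (hx : x ∉ QQ) : f x = 0 := by
  unfold QQ at hx
  rw [mem_prod, not_and_or] at hx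
  rcases hx with h | h
  · apply hf.supp1
    rw [← not_le, abs_le]
    exact h
  · apply hf.supp2
    rw [← not_le, abs_le]
    exact h

/-- level sets -/
def EE (f : ℝ × ℝ → ℂ) (s : ℝ) : ℕ → Set (ℝ × ℝ)
  | 0 => {x | ‖f x‖ < s} ∩ QQ
  | (k + 1) => {x | (2 : ℝ) ^ k * s ≤ ‖f x‖ ∧ ‖f x‖ < (2 : ℝ) ^ (k + 1) * s} ∩ QQ

lemma EE_meas {f : ℝ × ℝ → ℂ} (hf : S2 f) (s : ℝ) (k : ℕ) : MeasurableSet (EE f s k) := by
  cases k with
  | zero => exact (measurableSet_lt hf.meas.norm measurable_const).inter QQ_meas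
  | succ k => exact ((measurableSet_le measurable_const hf.meas.norm).inter
      (measurableSet_lt hf.meas.norm measurable_const)).inter QQ_meas

/-- the pieces -/
noncomputable def pc (f : ℝ × ℝ → ℂ) (s : ℝ) (k : ℕ) : ℝ × ℝ → ℂ := (EE f s k).indicator f

lemma pc_BS2 {f : ℝ × ℝ → ℂ} (hf : S2 f) (s : ℝ) (hs : 0 < s) (k : ℕ) :
    BS2 ((2 : ℝ) ^ k * s) (pc f s k) := by
  refine ⟨hf.meas.indicator (EE_meas hf s k), fun x => ?_, fun x hx => ?_, fun x hx => ?_⟩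
  · unfold pc
    by_cases hx : x ∈ EE f s k
    · rw [indicator_of_mem hx]
      cases k with
      | zero =>
        have h1 : ‖f x‖ < s := hx.1
        simpa using h1.le
      | succ k => exact hx.1.2.le
    · rw [indicator_of_notMem hx, norm_zero]
      positivity
  · unfold pc
    rw [indicator_apply_eq_zero]
    exact fun _ => hf.supp1 x hx
  · unfold pc
    rw [indicator_apply_eq_zero]
    exact fun _ => hf.supp2 x hx

lemma pc_exists {f : ℝ × ℝ → ℂ} (s : ℝ) (hs : 0 < s) (x : ℝ × ℝ) (hx : x ∈ QQ) :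
    ∃ k, x ∈ EE f s k ∧ ∀ j, j ≠ k → x ∉ EE f s j := by
  by_cases h : ‖f x‖ < s
  · refine ⟨0, ⟨h, hx⟩, ?_⟩
    intro j hj hxj
    cases j with
    | zero => exact hj rfl
    | succ j =>
      have h1 : (2 : ℝ) ^ j * s ≤ ‖f x‖ := hxj.1.1
      have h2 : (1 : ℝ) ≤ 2 ^ j := one_le_pow₀ (by norm_num)
      nlinarith
  · push Not at h
    have h1 : 1 ≤ ‖f x‖ / s := by rwa [one_le_div hs]
    obtain ⟨j, hj1, hj2⟩ := exists_nat_pow_near h1 (by norm_num : (1 : ℝ) < 2)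
    rw [le_div_iff₀ hs] at hj1
    rw [div_lt_iff₀ hs] at hj2
    refine ⟨j + 1, ⟨⟨hj1, hj2⟩, hx⟩, ?_⟩
    intro i hi hxi
    cases i with
    | zero => exact absurd (show ‖f x‖ < s from hxi.1) (not_lt.2 h)
    | succ i =>
      have h2 : (2 : ℝ) ^ i * s ≤ ‖f x‖ := hxi.1.1
      have h3 : ‖f x‖ < (2 : ℝ) ^ (i + 1) * s := hxi.1.2
      have h4 : (2 : ℝ) ^ i * s < (2 : ℝ) ^ (j + 1) * s := lt_of_le_of_lt h2 hj2
      have h5 : (2 : ℝ) ^ j * s < (2 : ℝ) ^ (i + 1) * s := lt_of_le_of_lt hj1 h3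
      have h6 := (pow_lt_pow_iff_right₀ (by norm_num : (1 : ℝ) < 2)).1 (lt_of_mul_lt_mul_right h4 hs.le)
      have h7 := (pow_lt_pow_iff_right₀ (by norm_num : (1 : ℝ) < 2)).1 (lt_of_mul_lt_mul_right h5 hs.le)
      apply hi
      omega

lemma pc_sum {f : ℝ × ℝ → ℂ} (hf : S2 f) (s : ℝ) (hs : 0 < s) (x : ℝ × ℝ) :
    ∑' k, pc f s k x = f x := by
  by_cases hx : x ∈ QQ
  · obtain ⟨k, hk, hk2⟩ := pc_exists (f := f) s hs x hx
    rw [tsum_eq_single k]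
    · unfold pc
      rw [indicator_of_mem hk]
    · intro j hj
      unfold pc
      rw [indicator_of_notMem (hk2 j hj)]
  · have h0 : f x = 0 := hf.zero x hx
    rw [h0]
    have : ∀ k, pc f s k x = 0 := by
      intro k
      unfold pc
      rw [indicator_apply_eq_zero]
      exact fun _ => h0
    simp [this]

lemma pc_esum {f : ℝ × ℝ → ℂ} (hf : S2 f) (s : ℝ) (hs : 0 < s) (x : ℝ × ℝ) :
    ∑' k, ‖pc f s k x‖ₑ = ‖f x‖ₑ := by
  by_cases hx : x ∈ QQ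
  · obtain ⟨k, hk, hk2⟩ := pc_exists (f := f) s hs x hx
    rw [tsum_eq_single k]
    · unfold pc
      rw [indicator_of_mem hk]
    · intro j hj
      unfold pc
      rw [indicator_of_notMem (hk2 j hj)]
      simp
  · have h0 : f x = 0 := hf.zero x hx
    rw [h0]
    have : ∀ k, pc f s k x = 0 := by
      intro k
      unfold pc
      rw [indicator_apply_eq_zero]
      exact fun _ => h0
    simp [this]

lemma EE_vol0 (f : ℝ × ℝ → ℂ) (s : ℝ) (k : ℕ) : volume (EE f s k) ≤ 4 := by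
  rw [← QQ_vol]
  cases k with
  | zero => exact measure_mono inter_subset_right
  | succ k => exact measure_mono inter_subset_right

lemma EE_vol {f : ℝ × ℝ → ℂ} (hf : S2 f) (s : ℝ) (hs : 0 < s) (q : ℝ) (hq : 0 < q)
    (hN : ∫⁻ x, ‖f x‖ₑ ^ q ≤ ENNReal.ofReal (s ^ q)) (k : ℕ) :
    volume (EE f s (k + 1)) ≤ ENNReal.ofReal (((2 : ℝ) ^ k) ^ (-q)) := by
  have h1 : EE f s (k + 1) ⊆ {x | ENNReal.ofReal (((2 : ℝ) ^ k * s) ^ q) ≤ ‖f x‖ₑ ^ q} := by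
    intro x hx
    have h2 : (2 : ℝ) ^ k * s ≤ ‖f x‖ := hx.1.1
    change ENNReal.ofReal (((2 : ℝ) ^ k * s) ^ q) ≤ ‖f x‖ₑ ^ q
    rw [← ofReal_norm, ENNReal.ofReal_rpow_of_nonneg (norm_nonneg _) hq.le]
    apply ENNReal.ofReal_le_ofReal
    exact Real.rpow_le_rpow (by positivity) h2 hq.le
  have h2 := mul_meas_ge_le_lintegral₀ (μ := (volume : Measure (ℝ × ℝ)))
    (hf.meas.enorm.pow_const q).aemeasurable (ENNReal.ofReal (((2 : ℝ) ^ k * s) ^ q))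
  have h3 : ENNReal.ofReal (((2 : ℝ) ^ k * s) ^ q) * volume (EE f s (k + 1)) ≤
      ENNReal.ofReal (s ^ q) := (mul_le_mul' le_rfl (measure_mono h1)).trans (h2.trans hN)
  have h4 : ENNReal.ofReal (((2 : ℝ) ^ k * s) ^ q) ≠ 0 := by
    rw [Ne, ENNReal.ofReal_eq_zero, not_le]
    positivity
  rw [mul_comm, ← ENNReal.le_div_iff_mul_le (Or.inl h4) (Or.inl ENNReal.ofReal_ne_top)] at h3
  refine h3.trans (le_of_eq ?_)
  rw [← ENNReal.ofReal_div_of_pos (by positivity)]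
  congr 1
  rw [Real.mul_rpow (by positivity) hs.le, Real.rpow_neg (by positivity)]
  have : s ^ q ≠ 0 := by positivity
  field_simp

lemma dil_lint (f : ℝ × ℝ → ℝ≥0∞) (hf : Measurable f) (l : ℝ) (hl : 1 ≤ l) :
    ∫⁻ x : ℝ × ℝ, f (x.1, l * x.2) ≤ ∫⁻ x, f x := by
  have hm : Measurable fun x : ℝ × ℝ => f (x.1, l * x.2) := hf.comp (by fun_prop)
  rw [Measure.volume_eq_prod, lintegral_prod _ hf.aemeasurable,
    lintegral_prod _ hm.aemeasurable]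
  apply lintegral_mono
  intro y
  simp only
  rw [lint_scale (fun z => f (y, z)) (hf.comp (by fun_prop)) l (by linarith)]
  apply mul_le_of_le_one_left (zero_le)
  rw [ENNReal.ofReal_le_one]
  exact inv_le_one_of_one_le₀ hl

lemma ext_sum {f : ℝ × ℝ → ℂ} (hf : S2 f) (hint : ∫⁻ x, ‖f x‖ₑ ≠ ⊤) (s : ℝ) (hs : 0 < s)
    (l : ℝ) (hl : 1 ≤ l) (ξ : ℝ × ℝ × ℝ) :
    ‖ext (dil l f) ξ‖ₑ ≤ ∑' k, ‖ext (dil l (pc f s k)) ξ‖ₑ := by
  have hph : Measurable fun x : ℝ × ℝ =>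
      cexp (-I * (x.1 * ξ.1 + x.2 * ξ.2.1 + (x.1 ^ 2 + x.2 ^ 2) * ξ.2.2)) := by fun_prop
  have hn : ∀ x : ℝ × ℝ,
      ‖cexp (-I * (x.1 * ξ.1 + x.2 * ξ.2.1 + (x.1 ^ 2 + x.2 ^ 2) * ξ.2.2))‖ₑ = 1 := by
    intro x
    have e : -I * (x.1 * ξ.1 + x.2 * ξ.2.1 + (x.1 ^ 2 + x.2 ^ 2) * ξ.2.2 : ℂ) =
        ((-(x.1 * ξ.1 + x.2 * ξ.2.1 + (x.1 ^ 2 + x.2 ^ 2) * ξ.2.2) : ℝ) : ℂ) * I := by
      push_cast
      ring
    rw [← ofReal_norm, e, Complex.norm_exp_ofReal_mul_I, ENNReal.ofReal_one]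
  have h1 : ext (dil l f) ξ = ∑' k, ext (dil l (pc f s k)) ξ := by
    unfold ext
    rw [← integral_tsum]
    · apply integral_congr_ae
      refine ae_of_all _ fun x => ?_
      simp only
      rw [tsum_mul_left]
      congr 1
      unfold dil
      exact (pc_sum hf s hs _).symm
    · intro k
      apply Measurable.aestronglyMeasurable
      exact hph.mul ((pc_BS2 hf s hs k).meas.comp (by fun_prop))
    · have e1 : ∀ k, ∫⁻ x : ℝ × ℝ, ‖cexp (-I * (x.1 * ξ.1 + x.2 * ξ.2.1 +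
          (x.1 ^ 2 + x.2 ^ 2) * ξ.2.2)) * dil l (pc f s k) x‖ₑ =
          ∫⁻ x : ℝ × ℝ, ‖pc f s k (x.1, l * x.2)‖ₑ := by
        intro k
        apply lintegral_congr
        intro x
        rw [enorm_mul, hn, one_mul]
        rfl
      simp only [e1]
      rw [← lintegral_tsum]
      · simp only [pc_esum hf s hs]
        exact ne_top_of_le_ne_top hint (dil_lint (fun x => ‖f x‖ₑ) hf.meas.enorm l hl)
      · intro k
        exact ((pc_BS2 hf s hs k).meas.comp (by fun_prop)).enorm.aemeasurable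
  rw [h1]
  exact enorm_tsum_le_tsum_enorm

lemma ext_meas1 {f : ℝ × ℝ → ℂ} (hf : Measurable f) (l : ℝ) :
    Measurable fun ξ : ℝ × ℝ × ℝ => ext (dil l f) ξ := by
  have := (ext_meas hf).comp (measurable_const (a := l) |>.prodMk
      (measurable_id (α := ℝ × ℝ × ℝ)))
  exact this

/-- weighted Hölder -/
lemma holder24w {Λ : Type*} [MeasurableSpace Λ] (P : Measure Λ) (u w w1 w2 : Λ → ℝ≥0∞)
    (hu : Measurable u) (hw1 : Measurable w1) (hw2 : Measurable w2)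
    (p : ℝ) (hp : 1 < p) (hw : ∀ l, w1 l ^ (p - 1) * w2 l = w l ^ p)
    (q₁ : ℝ) (hq₁ : p * q₁ = 2 * p + 2) :
    (∫⁻ l, w l * u l ^ q₁ ∂P) ^ p ≤ (∫⁻ l, w1 l * u l ^ (2 : ℝ) ∂P) ^ (p - 1) *
      (∫⁻ l, w2 l * u l ^ (4 : ℝ) ∂P) := by
  have hp0 : 0 < p := by linarith
  have hpq : (p / (p - 1)).HolderConjugate p := by
    rw [Real.holderConjugate_iff]
    constructor
    · rw [lt_div_iff₀ (by linarith)]
      linarith
    · rw [inv_div]
      field_simp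
      ring
  have h := ENNReal.lintegral_mul_le_Lp_mul_Lq P hpq
    (f := fun l => (w1 l * u l ^ (2 : ℝ)) ^ ((p - 1) / p))
    (g := fun l => (w2 l * u l ^ (4 : ℝ)) ^ (1 / p))
    ((hw1.mul (hu.pow_const _)).pow_const _).aemeasurable
    ((hw2.mul (hu.pow_const _)).pow_const _).aemeasurable
  have e1 : ∀ l, ((fun l => (w1 l * u l ^ (2 : ℝ)) ^ ((p - 1) / p)) *
      (fun l => (w2 l * u l ^ (4 : ℝ)) ^ (1 / p))) l = w l * u l ^ q₁ := by
    intro l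
    simp only [Pi.mul_apply]
    rw [ENNReal.mul_rpow_of_nonneg _ _ (by apply div_nonneg <;> linarith),
      ENNReal.mul_rpow_of_nonneg _ _ (by positivity), ← ENNReal.rpow_mul, ← ENNReal.rpow_mul]
    have e2 : w1 l ^ ((p - 1) / p) * w2 l ^ (1 / p) = w l := by
      have : w1 l ^ ((p - 1) / p) = (w1 l ^ (p - 1)) ^ (1 / p) := by
        rw [← ENNReal.rpow_mul]
        congr 1
        ring
      rw [this, ← ENNReal.mul_rpow_of_nonneg _ _ (by positivity), hw l, ← ENNReal.rpow_mul,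
        mul_one_div_cancel hp0.ne', ENNReal.rpow_one]
    calc w1 l ^ ((p - 1) / p) * u l ^ (2 * ((p - 1) / p)) *
          (w2 l ^ (1 / p) * u l ^ (4 * (1 / p)))
        = (w1 l ^ ((p - 1) / p) * w2 l ^ (1 / p)) *
          (u l ^ (2 * ((p - 1) / p)) * u l ^ (4 * (1 / p))) := by ring
      _ = w l * u l ^ (2 * ((p - 1) / p) + 4 * (1 / p)) := by
          rw [e2, ← ENNReal.rpow_add_of_nonneg _ _
            (by apply mul_nonneg (by norm_num); apply div_nonneg <;> linarith) (by positivity)]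
      _ = _ := by
          congr 2
          field_simp
          linarith
  have e2 : ∀ l, ((w1 l * u l ^ (2 : ℝ)) ^ ((p - 1) / p)) ^ (p / (p - 1)) =
      w1 l * u l ^ (2 : ℝ) := by
    intro l
    rw [← ENNReal.rpow_mul]
    have h1 : p - 1 ≠ 0 := by linarith
    have : (p - 1) / p * (p / (p - 1)) = 1 := by field_simp
    rw [this, ENNReal.rpow_one]
  have e3 : ∀ l, ((w2 l * u l ^ (4 : ℝ)) ^ (1 / p)) ^ p = w2 l * u l ^ (4 : ℝ) := by
    intro l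
    rw [← ENNReal.rpow_mul]
    have : 1 / p * p = 1 := by field_simp
    rw [this, ENNReal.rpow_one]
  simp only [e1, e2, e3] at h
  refine (ENNReal.rpow_le_rpow h hp0.le).trans (le_of_eq ?_)
  rw [ENNReal.mul_rpow_of_nonneg _ _ hp0.le, ← ENNReal.rpow_mul, ← ENNReal.rpow_mul]
  have h1 : p - 1 ≠ 0 := by linarith
  have e4 : 1 / (p / (p - 1)) * p = p - 1 := by field_simp
  have e5 : 1 / p * p = 1 := by field_simp
  rw [e4, e5, ENNReal.rpow_one]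

lemma wt_int (a : ℝ) (ha : 1 < a) : ∫⁻ t, wt (-a) t ≠ ⊤ := by
  unfold wt
  have h1 : Integrable (fun t : ℝ => (1 + |t|) ^ (-a)) := by
    have := integrable_one_add_norm (E := ℝ) (μ := volume) (r := a) (by simpa using ha)
    simpa using this
  exact h1.lintegral_lt_top.ne

/-- moments of one level -/
theorem levelp (α γ p q A L : ℝ) (hA : 0 ≤ A) (hα1 : α ≤ 1) (hγ0 : 0 ≤ γ) (hp : 1 < p)
    (hpα : p * (1 + γ) < 1 + α) (hq : 2 + 2 / p < q) (hL : 1 ≤ L) :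
    ∃ K : ℝ≥0∞, K ≠ ⊤ ∧ ∀ μ : Measure ℝ, Fro μ A α →
      ∀ (M : ℝ) (f : ℝ × ℝ → ℂ), BS2 M f → ∀ E : Set (ℝ × ℝ), MeasurableSet E →
      (∀ x, x ∉ E → f x = 0) → volume E ≤ 4 →
      ∫⁻ l in Icc 1 L, (∫⁻ ξ : ℝ × ℝ × ℝ, wt γ ξ.2.2 * ‖ext (dil l f) ξ‖ₑ ^ q) ^ p ∂μ ≤
        K * (ENNReal.ofReal M ^ q * volume E ^ (1 + (q - (2 + 2 / p)))) ^ p := by
  have hp0 : 0 < p := by linarith
  set b : ℝ := (γ * p + p - 1 + α) / 2 with hb
  set a : ℝ := (b - γ * p) / (p - 1) with ha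
  have hγp : 0 ≤ γ * p := by positivity
  have hb1 : γ * p + (p - 1) < b := by nlinarith
  have hb2 : b < α := by nlinarith
  have ha1 : 1 < a := by
    rw [ha, lt_div_iff₀ (by linarith)]
    linarith
  obtain ⟨K, hK, hKK⟩ := total4' α b A L hA hα1 (by linarith) hb2 hL
  set q₁ : ℝ := 2 + 2 / p with hq₁
  have hq₁p : p * q₁ = 2 * p + 2 := by
    rw [hq₁]
    field_simp
  have hq₁2 : 2 < q₁ := by
    have : 0 < 2 / p := by positivity
    linarith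
  set D : ℝ≥0∞ := ENNReal.ofReal (2 * Real.pi) ^ 2 * (∫⁻ t, wt (-a) t) with hD
  have hDt : D ≠ ⊤ := ENNReal.mul_ne_top (ENNReal.pow_ne_top ENNReal.ofReal_ne_top) (wt_int a ha1)
  refine ⟨D ^ (p - 1) * K, ENNReal.mul_ne_top (ENNReal.rpow_ne_top_of_nonneg (by linarith) hDt) hK,
    ?_⟩
  intro μ hμ M f hf E hE hfE hvE
  have hfin : IsFiniteMeasure (μ.restrict (Icc 1 L)) := by
    refine ⟨lt_of_le_of_lt ?_ (ENNReal.ofReal_lt_top (r := A * L ^ α))⟩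
    rw [Measure.restrict_apply_univ]
    refine (measure_mono ?_).trans (hμ 1 L (by linarith))
    exact Icc_subset_Icc le_rfl (by linarith)
  obtain ⟨hN1, hN2, hN4⟩ := N_bounds hf E hE hfE
  set m := ENNReal.ofReal M with hm
  set v := volume E with hv
  have hvt : v ≠ ⊤ := ne_top_of_le_ne_top (by simp) hvE
  have hmvt : m * v ≠ ⊤ := ENNReal.mul_ne_top ENNReal.ofReal_ne_top hvt
  have h1 : ∀ l ∈ Icc 1 L, (∫⁻ ξ : ℝ × ℝ × ℝ, wt γ ξ.2.2 * ‖ext (dil l f) ξ‖ₑ ^ q) ^ p ≤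
      ((m * v) ^ ((q - q₁) * p) * (D * (m ^ 2 * v)) ^ (p - 1)) *
        ∫⁻ ξ : ℝ × ℝ × ℝ, wt b ξ.2.2 * ‖ext (dil l f) ξ‖ₑ ^ (4 : ℝ) := by
    intro l hl
    have hbb : ∀ ξ, ‖ext (dil l f) ξ‖ₑ ≤ m * v := by
      intro ξ
      obtain ⟨n1, -, -⟩ := N_int hf.meas
      refine le_trans ?_ hN1
      rw [n1]
      unfold ext
      refine (enorm_integral_le_lintegral_enorm _).trans ?_
      refine le_trans (le_of_eq ?_) (dil_lint (fun x => ‖f x‖ₑ) hf.meas.enorm l hl.1)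
      apply lintegral_congr
      intro x
      have e : -I * (x.1 * ξ.1 + x.2 * ξ.2.1 + (x.1 ^ 2 + x.2 ^ 2) * ξ.2.2 : ℂ) =
          ((-(x.1 * ξ.1 + x.2 * ξ.2.1 + (x.1 ^ 2 + x.2 ^ 2) * ξ.2.2) : ℝ) : ℂ) * I := by
        push_cast
        ring
      rw [enorm_mul, ← ofReal_norm, e, Complex.norm_exp_ofReal_mul_I, ENNReal.ofReal_one, one_mul]
      rfl
    have h2 : ∫⁻ ξ : ℝ × ℝ × ℝ, wt γ ξ.2.2 * ‖ext (dil l f) ξ‖ₑ ^ q ≤
        (m * v) ^ (q - q₁) * ∫⁻ ξ : ℝ × ℝ × ℝ, wt γ ξ.2.2 * ‖ext (dil l f) ξ‖ₑ ^ q₁ := by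
      rw [← lintegral_const_mul' _ _ (ENNReal.rpow_ne_top_of_nonneg (by linarith) hmvt)]
      apply lintegral_mono
      intro ξ
      simp only
      have e1 : ‖ext (dil l f) ξ‖ₑ ^ q =
          ‖ext (dil l f) ξ‖ₑ ^ (q - q₁) * ‖ext (dil l f) ξ‖ₑ ^ q₁ := by
        rw [← ENNReal.rpow_add_of_nonneg _ _ (by linarith) (by linarith)]
        congr 1
        ring
      rw [e1]
      calc wt γ ξ.2.2 * (‖ext (dil l f) ξ‖ₑ ^ (q - q₁) * ‖ext (dil l f) ξ‖ₑ ^ q₁)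
          = ‖ext (dil l f) ξ‖ₑ ^ (q - q₁) * (wt γ ξ.2.2 * ‖ext (dil l f) ξ‖ₑ ^ q₁) := by ring
        _ ≤ _ := mul_le_mul' (ENNReal.rpow_le_rpow (hbb ξ) (by linarith)) le_rfl
    have hw3 : ∀ c : ℝ, Measurable fun ξ : ℝ × ℝ × ℝ => wt c ξ.2.2 := fun c =>
      (wt_meas c).comp (measurable_snd.comp measurable_snd)
    have h3 := holder24w (volume : Measure (ℝ × ℝ × ℝ)) (fun ξ => ‖ext (dil l f) ξ‖ₑ)
      (fun ξ => wt γ ξ.2.2)
      (fun ξ => wt (-a) ξ.2.2) (fun ξ => wt b ξ.2.2) (ext_meas1 hf.meas l).enorm (hw3 _) (hw3 _)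
      p hp (by
        intro ξ
        unfold wt
        rw [ENNReal.ofReal_rpow_of_pos (by positivity), ← ENNReal.ofReal_mul (by positivity),
          ENNReal.ofReal_rpow_of_pos (by positivity),
          ← Real.rpow_mul (by positivity), ← Real.rpow_mul (by positivity),
          ← Real.rpow_add (by positivity)]
        have : -a * (p - 1) + b = γ * p := by
          rw [ha]
          have : p - 1 ≠ 0 := by linarith
          field_simp
          ring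
        rw [this]) q₁ hq₁p
    have h4 : (∫⁻ ξ : ℝ × ℝ × ℝ, wt (-a) ξ.2.2 * ‖ext (dil l f) ξ‖ₑ ^ (2 : ℝ)) ≤ D * (m ^ 2 * v) :=
      (two_w hf (wt (-a)) (wt_meas _) l hl.1).trans (mul_le_mul' le_rfl hN2)
    calc (∫⁻ ξ : ℝ × ℝ × ℝ, wt γ ξ.2.2 * ‖ext (dil l f) ξ‖ₑ ^ q) ^ p
        ≤ ((m * v) ^ (q - q₁) *
          ∫⁻ ξ : ℝ × ℝ × ℝ, wt γ ξ.2.2 * ‖ext (dil l f) ξ‖ₑ ^ q₁) ^ p :=
          ENNReal.rpow_le_rpow h2 hp0.le
      _ = (m * v) ^ ((q - q₁) * p) *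
          (∫⁻ ξ : ℝ × ℝ × ℝ, wt γ ξ.2.2 * ‖ext (dil l f) ξ‖ₑ ^ q₁) ^ p := by
          rw [ENNReal.mul_rpow_of_nonneg _ _ hp0.le, ← ENNReal.rpow_mul]
      _ ≤ (m * v) ^ ((q - q₁) * p) * ((D * (m ^ 2 * v)) ^ (p - 1) *
          ∫⁻ ξ : ℝ × ℝ × ℝ, wt b ξ.2.2 * ‖ext (dil l f) ξ‖ₑ ^ (4 : ℝ)) := by
          refine mul_le_mul' le_rfl (h3.trans (mul_le_mul' ?_ le_rfl))
          exact ENNReal.rpow_le_rpow h4 (by linarith)
      _ = _ := by ring
  have hct : (m * v) ^ ((q - q₁) * p) * (D * (m ^ 2 * v)) ^ (p - 1) ≠ ⊤ := by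
    refine ENNReal.mul_ne_top (ENNReal.rpow_ne_top_of_nonneg ?_ hmvt)
      (ENNReal.rpow_ne_top_of_nonneg (by linarith) ?_)
    · apply mul_nonneg <;> linarith
    · exact ENNReal.mul_ne_top hDt (ENNReal.mul_ne_top
        (ENNReal.pow_ne_top ENNReal.ofReal_ne_top) hvt)
  calc ∫⁻ l in Icc 1 L, (∫⁻ ξ : ℝ × ℝ × ℝ, wt γ ξ.2.2 * ‖ext (dil l f) ξ‖ₑ ^ q) ^ p ∂μ
      ≤ ∫⁻ l in Icc 1 L, ((m * v) ^ ((q - q₁) * p) * (D * (m ^ 2 * v)) ^ (p - 1)) *
        (∫⁻ ξ : ℝ × ℝ × ℝ, wt b ξ.2.2 * ‖ext (dil l f) ξ‖ₑ ^ (4 : ℝ)) ∂μ :=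
        setLIntegral_mono' measurableSet_Icc h1
    _ = ((m * v) ^ ((q - q₁) * p) * (D * (m ^ 2 * v)) ^ (p - 1)) *
        ∫⁻ l in Icc 1 L, (∫⁻ ξ : ℝ × ℝ × ℝ, wt b ξ.2.2 * ‖ext (dil l f) ξ‖ₑ ^ (4 : ℝ)) ∂μ := by
        rw [lintegral_const_mul' _ _ hct]
    _ ≤ ((m * v) ^ ((q - q₁) * p) * (D * (m ^ 2 * v)) ^ (p - 1)) * (K * (m ^ 4 * v)) := by
        refine mul_le_mul' le_rfl ?_
        refine (ext_lew hf (wt b) (wt_meas b) (wt_top b) μ L 4 (by norm_num)).trans ?_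
        exact (hKK μ hμ M f hf).trans (mul_le_mul' le_rfl hN4)
    _ = D ^ (p - 1) * K * ((m ^ ((q - q₁) * p) * m ^ (2 * (p - 1)) * m ^ (4 : ℝ)) *
        (v ^ ((q - q₁) * p) * v ^ (p - 1) * v ^ (1 : ℝ))) := by
        have eD : (D * (m ^ 2 * v)) ^ (p - 1) = D ^ (p - 1) * (m ^ (2 * (p - 1)) * v ^ (p - 1)) := by
          rw [ENNReal.mul_rpow_of_nonneg D _ (by linarith),
            ENNReal.mul_rpow_of_nonneg (m ^ 2) v (by linarith), ← ENNReal.rpow_natCast m 2,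
            ← ENNReal.rpow_mul]
          push_cast
          rfl
        rw [eD, ENNReal.mul_rpow_of_nonneg m v (by apply mul_nonneg <;> linarith),
          ENNReal.rpow_one, ENNReal.rpow_ofNat]
        ring
    _ = _ := by
        have hqp : 0 ≤ (q - q₁) * p := by apply mul_nonneg <;> linarith
        rw [← ENNReal.rpow_add_of_nonneg _ _ hqp (by linarith),
          ← ENNReal.rpow_add_of_nonneg _ _ (by linarith) (by norm_num),
          ← ENNReal.rpow_add_of_nonneg _ _ hqp (by linarith),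
          ← ENNReal.rpow_add_of_nonneg _ _ (by linarith) (by norm_num),
          ENNReal.mul_rpow_of_nonneg _ _ hp0.le, ← ENNReal.rpow_mul, ← ENNReal.rpow_mul]
        have e1 : (q - q₁) * p + 2 * (p - 1) + 4 = q * p := by linarith
        have e2 : (q - q₁) * p + (p - 1) + 1 = (1 + (q - q₁)) * p := by ring
        rw [e1, e2]

end Pool.Agent.H147R3.PE
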