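import Mathlib
import Pool.Agent.H147R3.PE.W2
set_option autoImplicit false

/-! Summation of the levels, in `L^p` of the dilation parameter. -/

namespace Pool.Agent.H147R3.PE

open MeasureTheory Set Complex
open scoped ENNReal FourierTransform ComplexConjugate Convolution

lemma hgeo (x : ℝ) (hx0 : 0 < x) (hx1 : x < 1) : (∑' k : ℕ, ENNReal.ofReal (x ^ k)) ≠ ⊤ := by
  have : ∀ k : ℕ, ENNReal.ofReal (x ^ k) = ENNReal.ofReal x ^ k := fun k =>
    ENNReal.ofReal_pow hx0.le k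
  simp only [this]
  rw [ENNReal.tsum_geometric, ENNReal.inv_ne_top]
  exact (tsub_pos_of_lt (ENNReal.ofReal_lt_one.2 hx1)).ne'

/-- the estimate with the normalisation `s` -/
theorem main_p (α γ p q A L : ℝ) (hA : 0 ≤ A) (hα1 : α ≤ 1) (hγ0 : 0 ≤ γ) (hp : 1 < p)
    (hpα : p * (1 + γ) < 1 + α) (hq : 2 + 2 / p < q) (hL : 1 ≤ L) :
    ∃ K : ℝ≥0∞, K ≠ ⊤ ∧ ∀ μ : Measure ℝ, Fro μ A α →
      ∀ f : ℝ × ℝ → ℂ, S2 f → ∀ s : ℝ, 0 < s → ∫⁻ x, ‖f x‖ₑ ^ q ≤ ENNReal.ofReal (s ^ q) →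
      ∫⁻ l in Icc 1 L, (∫⁻ ξ : ℝ × ℝ × ℝ, wt γ ξ.2.2 * ‖ext (dil l f) ξ‖ₑ ^ q) ^ p ∂μ ≤
        K * ENNReal.ofReal (s ^ q) ^ p := by
  have hp0 : 0 < p := by linarith
  obtain ⟨K, hK, hKK⟩ := levelp α γ p q A L hA hα1 hγ0 hp hpα hq hL
  set δ := q - (2 + 2 / p) with hδ
  have hδ0 : 0 < δ := by linarith
  have h2p : 0 < 2 / p := by positivity
  have hq1 : 1 < q := by linarith
  -- the ratios
  set r : ℝ := (2 : ℝ) ^ (-(q * δ)) with hr
  have hr0 : 0 < r := by positivity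
  set ρ : ℝ := (2 : ℝ) ^ (-(q * δ / (2 * (q - 1)))) with hρ
  have hρ0 : 0 < ρ := by positivity
  have hρ1 : ρ < 1 := by
    apply Real.rpow_lt_one_of_one_lt_of_neg (by norm_num)
    rw [neg_lt_zero]
    have : 0 < q - 1 := by linarith
    positivity
  set σ : ℝ := (2 : ℝ) ^ (-(q * δ * p / (4 * (p - 1)))) with hσ
  have hσ0 : 0 < σ := by positivity
  have hσ1 : σ < 1 := by
    apply Real.rpow_lt_one_of_one_lt_of_neg (by norm_num)
    rw [neg_lt_zero]
    have : 0 < p - 1 := by linarith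
    positivity
  set C₀ : ℝ := (2 : ℝ) ^ (q + q * δ) + 4 ^ (1 + δ) with hC₀
  have hC₀0 : 0 < C₀ := by positivity
  have hsr : ∀ k : ℕ, (σ ^ k) ^ (-(p - 1)) * (((ρ ^ k) ^ (-(q - 1))) ^ p * (r ^ k) ^ p) =
      ((2 : ℝ) ^ (-(q * δ * p / 4))) ^ k := by
    intro k
    rw [← Real.rpow_natCast, ← Real.rpow_natCast, ← Real.rpow_natCast, ← Real.rpow_natCast, hρ, hr,
      hσ,
      ← Real.rpow_mul (by positivity), ← Real.rpow_mul (by positivity),
      ← Real.rpow_mul (by positivity), ← Real.rpow_mul (by positivity),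
      ← Real.rpow_mul (by positivity), ← Real.rpow_mul (by positivity),
      ← Real.rpow_mul (by positivity), ← Real.rpow_mul (by positivity),
      ← Real.rpow_add (by norm_num), ← Real.rpow_add (by norm_num)]
    congr 1
    have : q - 1 ≠ 0 := by linarith
    have : p - 1 ≠ 0 := by linarith
    field_simp
    ring
  set G : ℝ≥0∞ := (∑' k, ENNReal.ofReal (ρ ^ k)) ^ (q - 1) with hG
  have hGt : G ≠ ⊤ := ENNReal.rpow_ne_top_of_nonneg (by linarith) (hgeo ρ hρ0 hρ1)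
  set G' : ℝ≥0∞ := (∑' k, ENNReal.ofReal (σ ^ k)) ^ (p - 1) with hG'
  have hG't : G' ≠ ⊤ := ENNReal.rpow_ne_top_of_nonneg (by linarith) (hgeo σ hσ0 hσ1)
  have hGG : G ^ p * G' ≠ ⊤ := ENNReal.mul_ne_top (ENNReal.rpow_ne_top_of_nonneg hp0.le hGt) hG't
  refine ⟨G ^ p * G' * (K * ENNReal.ofReal C₀ ^ p *
    ∑' k : ℕ, ENNReal.ofReal (((2 : ℝ) ^ (-(q * δ * p / 4))) ^ k)), ?_, ?_⟩
  · refine ENNReal.mul_ne_top hGG (ENNReal.mul_ne_top (ENNReal.mul_ne_top hK
      (ENNReal.rpow_ne_top_of_nonneg hp0.le ENNReal.ofReal_ne_top)) ?_)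
    apply hgeo
    · positivity
    · apply Real.rpow_lt_one_of_one_lt_of_neg (by norm_num)
      have : 0 < q * δ * p := by positivity
      linarith
  intro μ hμ f hf s hs hN
  have hint : ∫⁻ x, ‖f x‖ₑ ≠ ⊤ := by
    have h4 : ∀ x, ‖f x‖ₑ ≤ QQ.indicator (fun _ => 1) x + ‖f x‖ₑ ^ q := by
      intro x
      by_cases hx : x ∈ QQ
      · rw [indicator_of_mem hx]
        by_cases h5 : ‖f x‖ₑ ≤ 1
        · exact h5.trans le_self_add
        · push Not at h5
          refine le_trans ?_ le_add_self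
          calc ‖f x‖ₑ = ‖f x‖ₑ ^ (1 : ℝ) := (ENNReal.rpow_one _).symm
            _ ≤ _ := ENNReal.rpow_le_rpow_of_exponent_le h5.le hq1.le
      · rw [hf.zero x hx]
        simp
    refine ne_top_of_le_ne_top ?_ (lintegral_mono h4)
    rw [lintegral_add_left ((measurable_const).indicator QQ_meas),
      lintegral_indicator QQ_meas, lintegral_const, Measure.restrict_apply_univ, QQ_vol]
    exact ENNReal.add_ne_top.2 ⟨by simp, ne_top_of_le_ne_top ENNReal.ofReal_ne_top hN⟩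
  -- the level pieces
  have hX : ∀ k, ∫⁻ l in Icc 1 L, (∫⁻ ξ : ℝ × ℝ × ℝ, wt γ ξ.2.2 * ‖ext (dil l (pc f s k)) ξ‖ₑ ^ q) ^ p ∂μ ≤
      K * (ENNReal.ofReal (s ^ q) * ENNReal.ofReal C₀ * ENNReal.ofReal (r ^ k)) ^ p := by
    intro k
    refine (hKK μ hμ _ _ (pc_BS2 hf s hs k) (EE f s k) (EE_meas hf s k)
      (fun x hx => by unfold pc; rw [indicator_of_notMem hx]) (EE_vol0 f s k)).trans ?_
    refine mul_le_mul' le_rfl (ENNReal.rpow_le_rpow ?_ hp0.le)
    rw [mul_assoc]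
    rw [ENNReal.ofReal_rpow_of_pos (by positivity), Real.mul_rpow (by positivity) hs.le,
      ENNReal.ofReal_mul (by positivity), mul_comm (ENNReal.ofReal (((2 : ℝ) ^ k) ^ q)), mul_assoc]
    refine mul_le_mul' le_rfl ?_
    cases k with
    | zero =>
      simp only [pow_zero, Real.one_rpow, ENNReal.ofReal_one, one_mul, mul_one]
      calc volume (EE f s 0) ^ (1 + δ) ≤ 4 ^ (1 + δ) :=
            ENNReal.rpow_le_rpow (EE_vol0 f s 0) (by linarith)
        _ = ENNReal.ofReal (4 ^ (1 + δ)) := by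
            rw [← ENNReal.ofReal_rpow_of_pos (by norm_num)]
            norm_num
        _ ≤ _ := ENNReal.ofReal_le_ofReal (by
            rw [hC₀]
            have : 0 < (2 : ℝ) ^ (q + q * δ) := by positivity
            linarith)
    | succ k =>
      have h5 := EE_vol hf s hs q (by linarith) hN k
      calc ENNReal.ofReal (((2 : ℝ) ^ (k + 1)) ^ q) * volume (EE f s (k + 1)) ^ (1 + δ)
          ≤ ENNReal.ofReal (((2 : ℝ) ^ (k + 1)) ^ q) *
            (ENNReal.ofReal (((2 : ℝ) ^ k) ^ (-q))) ^ (1 + δ) :=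
            mul_le_mul' le_rfl (ENNReal.rpow_le_rpow h5 (by linarith))
        _ = ENNReal.ofReal ((2 : ℝ) ^ (q + q * δ) * r ^ (k + 1)) := by
            rw [ENNReal.ofReal_rpow_of_pos (by positivity), ← ENNReal.ofReal_mul (by positivity)]
            congr 1
            rw [hr, ← Real.rpow_natCast, ← Real.rpow_natCast, ← Real.rpow_natCast,
              ← Real.rpow_mul (by norm_num), ← Real.rpow_mul (by norm_num),
              ← Real.rpow_mul (by norm_num), ← Real.rpow_mul (by norm_num),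
              ← Real.rpow_add (by norm_num), ← Real.rpow_add (by norm_num)]
            congr 1
            push_cast
            ring
        _ ≤ ENNReal.ofReal (C₀ * r ^ (k + 1)) := by
            apply ENNReal.ofReal_le_ofReal
            rw [hC₀]
            have : 0 < (4 : ℝ) ^ (1 + δ) := by positivity
            gcongr
            linarith
        _ = _ := by rw [ENNReal.ofReal_mul hC₀0.le]
  have hw3 : Measurable fun ξ : ℝ × ℝ × ℝ => wt γ ξ.2.2 :=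
    (wt_meas γ).comp (measurable_snd.comp measurable_snd)
  have hmk : ∀ k, Measurable fun p : ℝ × ℝ × ℝ × ℝ =>
      wt γ p.2.2.2 * ‖ext (dil p.1 (pc f s k)) p.2‖ₑ ^ q :=
    fun k => (hw3.comp measurable_snd).mul ((ext_meas (pc_BS2 hf s hs k).meas).enorm.pow_const q)
  have hmk1 : ∀ k l, Measurable fun ξ : ℝ × ℝ × ℝ =>
      wt γ ξ.2.2 * ‖ext (dil l (pc f s k)) ξ‖ₑ ^ q := by
    intro k l
    exact hw3.mul ((ext_meas1 (pc_BS2 hf s hs k).meas l).enorm.pow_const q)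
  have hmk2 : ∀ k, Measurable fun l : ℝ =>
      ∫⁻ ξ : ℝ × ℝ × ℝ, wt γ ξ.2.2 * ‖ext (dil l (pc f s k)) ξ‖ₑ ^ q :=
    fun k => (hmk k).lintegral_prod_right'
  set X : ℕ → ℝ → ℝ≥0∞ := fun k l =>
    ∫⁻ ξ : ℝ × ℝ × ℝ, wt γ ξ.2.2 * ‖ext (dil l (pc f s k)) ξ‖ₑ ^ q with hXdef
  -- pointwise in `l`
  have hpt : ∀ l ∈ Icc 1 L, (∫⁻ ξ : ℝ × ℝ × ℝ, wt γ ξ.2.2 * ‖ext (dil l f) ξ‖ₑ ^ q) ^ p ≤
      (G ^ p * G') * ∑' k, ENNReal.ofReal ((σ ^ k) ^ (-(p - 1))) *
        (ENNReal.ofReal ((ρ ^ k) ^ (-(q - 1))) * X k l) ^ p := by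
    intro l hl
    have h1 : ∫⁻ ξ : ℝ × ℝ × ℝ, wt γ ξ.2.2 * ‖ext (dil l f) ξ‖ₑ ^ q ≤
        G * ∑' k, ENNReal.ofReal ((ρ ^ k) ^ (-(q - 1))) * X k l := by
      calc ∫⁻ ξ : ℝ × ℝ × ℝ, wt γ ξ.2.2 * ‖ext (dil l f) ξ‖ₑ ^ q
          ≤ ∫⁻ ξ : ℝ × ℝ × ℝ, G *
            ∑' k, ENNReal.ofReal ((ρ ^ k) ^ (-(q - 1))) *
              (wt γ ξ.2.2 * ‖ext (dil l (pc f s k)) ξ‖ₑ ^ q) := by
            apply lintegral_mono
            intro ξ
            have h2 := (ENNReal.rpow_le_rpow (ext_sum hf hint s hs l hl.1 ξ)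
              (show 0 ≤ q by linarith)).trans (wsum _ ρ hρ0 q hq1)
            refine (mul_le_mul' (le_refl (wt γ ξ.2.2)) h2).trans (le_of_eq ?_)
            have e5 : ∀ k : ℕ, ENNReal.ofReal ((ρ ^ k) ^ (-(q - 1))) *
                (wt γ ξ.2.2 * ‖ext (dil l (pc f s k)) ξ‖ₑ ^ q) = wt γ ξ.2.2 *
                (ENNReal.ofReal ((ρ ^ k) ^ (-(q - 1))) * ‖ext (dil l (pc f s k)) ξ‖ₑ ^ q) := by
              intro k
              ring
            simp only [e5]
            rw [ENNReal.tsum_mul_left]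
            ring
        _ = _ := by
            rw [lintegral_const_mul' _ _ hGt, lintegral_tsum
              (fun k => ((hmk1 k l).const_mul _).aemeasurable)]
            congr 1
            apply tsum_congr
            intro k
            rw [lintegral_const_mul _ (hmk1 k l)]
    refine (ENNReal.rpow_le_rpow h1 hp0.le).trans ?_
    rw [ENNReal.mul_rpow_of_nonneg _ _ hp0.le, mul_assoc]
    exact mul_le_mul' le_rfl (wsum _ σ hσ0 p hp)
  calc ∫⁻ l in Icc 1 L, (∫⁻ ξ : ℝ × ℝ × ℝ, wt γ ξ.2.2 * ‖ext (dil l f) ξ‖ₑ ^ q) ^ p ∂μ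
      ≤ ∫⁻ l in Icc 1 L, (G ^ p * G') * ∑' k, ENNReal.ofReal ((σ ^ k) ^ (-(p - 1))) *
        (ENNReal.ofReal ((ρ ^ k) ^ (-(q - 1))) * X k l) ^ p ∂μ :=
        setLIntegral_mono' measurableSet_Icc hpt
    _ = (G ^ p * G') * ∑' k, ENNReal.ofReal ((σ ^ k) ^ (-(p - 1))) *
        (ENNReal.ofReal ((ρ ^ k) ^ (-(q - 1))) ^ p * ∫⁻ l in Icc 1 L, X k l ^ p ∂μ) := by
        rw [lintegral_const_mul' _ _ hGG, lintegral_tsum
            (fun k => ((((hmk2 k).const_mul _).pow_const p).const_mul _).aemeasurable)]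
        congr 1
        apply tsum_congr
        intro k
        have e1 : ∀ l, (ENNReal.ofReal ((ρ ^ k) ^ (-(q - 1))) * X k l) ^ p =
            ENNReal.ofReal ((ρ ^ k) ^ (-(q - 1))) ^ p * X k l ^ p :=
          fun l => ENNReal.mul_rpow_of_nonneg _ _ hp0.le
        change ∫⁻ l in Icc 1 L, ENNReal.ofReal ((σ ^ k) ^ (-(p - 1))) *
          (ENNReal.ofReal ((ρ ^ k) ^ (-(q - 1))) * X k l) ^ p ∂μ = _
        simp only [e1]
        rw [lintegral_const_mul _ (((hmk2 k).pow_const p).const_mul _),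
          lintegral_const_mul _ ((hmk2 k).pow_const p)]
    _ ≤ (G ^ p * G') * ∑' k, ENNReal.ofReal ((σ ^ k) ^ (-(p - 1))) *
        (ENNReal.ofReal ((ρ ^ k) ^ (-(q - 1))) ^ p *
          (K * (ENNReal.ofReal (s ^ q) * ENNReal.ofReal C₀ * ENNReal.ofReal (r ^ k)) ^ p)) :=
        mul_le_mul' le_rfl (ENNReal.tsum_le_tsum fun k =>
          mul_le_mul' le_rfl (mul_le_mul' le_rfl (hX k)))
    _ = _ := by
        have e2 : ∀ k : ℕ, ENNReal.ofReal ((σ ^ k) ^ (-(p - 1))) *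
            (ENNReal.ofReal ((ρ ^ k) ^ (-(q - 1))) ^ p *
            (K * (ENNReal.ofReal (s ^ q) * ENNReal.ofReal C₀ * ENNReal.ofReal (r ^ k)) ^ p)) =
            (K * ENNReal.ofReal C₀ ^ p * ENNReal.ofReal (s ^ q) ^ p) *
              ENNReal.ofReal (((2 : ℝ) ^ (-(q * δ * p / 4))) ^ k) := by
          intro k
          rw [← hsr k, ENNReal.ofReal_mul (by positivity), ENNReal.ofReal_mul (by positivity),
            ENNReal.mul_rpow_of_nonneg _ _ hp0.le, ENNReal.mul_rpow_of_nonneg _ _ hp0.le,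
            ← ENNReal.ofReal_rpow_of_pos (p := p) (x := (ρ ^ k) ^ (-(q - 1))) (by positivity),
            ← ENNReal.ofReal_rpow_of_pos (p := p) (x := r ^ k) (by positivity)]
          ring
        simp only [e2]
        rw [ENNReal.tsum_mul_left]
        ring

end Pool.Agent.H147R3.PE
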